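import Mathlib

/-!
# The closure lemma: two members of a large family of enumerated countable sets which agree on
their common part
-/

set_option autoImplicit false

open Cardinal

namespace Pool.Agent.Lib.MP_df1441_gt

section

variable {K S Col : Type}

/-- arities -/
def Ar (a : Option (Col × (ℕ → Option ℕ))) : Type := match a with
  | none => Empty
  | some _ => ℕ

/-- evaluation of the trees -/
noncomputable def val (h : K → ℕ → S) (col : K → Col) (ξ₀ : K) :
    WType (Ar (Col := Col)) → K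
  | ⟨none, _⟩ => ξ₀
  | ⟨some a, t⟩ => by
    classical
    exact if hx : ∃ ξ, col ξ = a.1 ∧ ∀ n m, a.2 n = some m → h ξ n = h (val h col ξ₀ (t n)) m then
      hx.choose else ξ₀

theorem mk_wtype_le (hCol : #Col ≤ 𝔠) : #(WType (Ar (Col := Col))) ≤ 𝔠 := by
  refine WType.cardinalMk_le_of_le ?_
  have h1 : ∀ a : Option (Col × (ℕ → Option ℕ)), 𝔠 ^ #(Ar a) ≤ 𝔠 := by
    rintro (_ | a)
    · have : #(Ar (Col := Col) none) = 0 := by
        change #Empty = 0
        simp
      rw [this, power_zero]
      exact_mod_cast (nat_lt_continuum 1).le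
    · have : #(Ar (some a)) = ℵ₀ := by
        change #ℕ = ℵ₀
        simp
      rw [this, continuum_power_aleph0]
  have h2 : #(Option (Col × (ℕ → Option ℕ))) ≤ 𝔠 := by
    rw [mk_option, mk_prod, lift_id, lift_id]
    have h3 : #(ℕ → Option ℕ) ≤ 𝔠 := by
      rw [← power_def, mk_option, mk_nat]
      simp
    calc #Col * #(ℕ → Option ℕ) + 1 ≤ 𝔠 * 𝔠 + 𝔠 := by
          gcongr
          exact_mod_cast (nat_lt_continuum 1).le
      _ = 𝔠 := by simp
  calc (sum fun a : Option (Col × (ℕ → Option ℕ)) => 𝔠 ^ #(Ar a))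
      ≤ sum fun _ : Option (Col × (ℕ → Option ℕ)) => 𝔠 := sum_le_sum _ _ h1
    _ = #(Option (Col × (ℕ → Option ℕ))) * 𝔠 := by simp
    _ ≤ 𝔠 * 𝔠 := by gcongr
    _ = 𝔠 := continuum_mul_self

/-- the closure lemma -/
theorem exists_agree (hK : 𝔠 < #K) (hCol : #Col ≤ 𝔠) (h : K → ℕ → S) (col : K → Col) :
    ∃ ξ η : K, ξ ≠ η ∧ col ξ = col η ∧ ∀ n m, h ξ n = h η m → h ξ m = h η m := by
  classical
  have hne : Nonempty K := by
    rw [← mk_ne_zero_iff]
    intro h0
    rw [h0] at hK
    exact not_lt_zero hK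
  obtain ⟨ξ₀⟩ := hne
  have hex : ∃ η, η ∉ Set.range (val h col ξ₀) := by
    by_contra hcon
    push Not at hcon
    have h1 : Function.Surjective (val h col ξ₀) := fun η => hcon η
    exact absurd (mk_le_of_surjective h1) (not_le.2 ((mk_wtype_le hCol).trans_lt hK))
  obtain ⟨η, hη⟩ := hex
  -- the code of `η`
  let C : ℕ → WType (Ar (Col := Col)) → ℕ → Prop := fun n t m => h (val h col ξ₀ t) m = h η n
  let s : ℕ → Option ℕ := fun n => if hn : ∃ m t, C n t m then some hn.choose else none
  let t : ℕ → WType (Ar (Col := Col)) := fun n =>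
    if hn : ∃ m t, C n t m then hn.choose_spec.choose else ⟨none, fun x => x.elim⟩
  have hs : ∀ n m, s n = some m → C n (t n) m := by
    intro n m hm
    by_cases hn : ∃ m t, C n t m
    · have h1 : s n = some hn.choose := dif_pos hn
      have h2 : t n = hn.choose_spec.choose := dif_pos hn
      rw [h1] at hm
      cases hm
      rw [h2]
      exact hn.choose_spec.choose_spec
    · have h1 : s n = none := dif_neg hn
      rw [h1] at hm
      cases hm
  have hx : ∃ ξ, col ξ = col η ∧ ∀ n m, s n = some m → h ξ n = h (val h col ξ₀ (t n)) m :=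
    ⟨η, rfl, fun n m hm => (hs n m hm).symm⟩
  let T : WType (Ar (Col := Col)) := ⟨some (col η, s), t⟩
  have hT : val h col ξ₀ T = hx.choose := by
    change (if hx : ∃ ξ, col ξ = col η ∧ ∀ n m, s n = some m → h ξ n = h (val h col ξ₀ (t n)) m then
      hx.choose else ξ₀) = hx.choose
    rw [dif_pos hx]
  have hsp := hx.choose_spec
  rw [← hT] at hsp
  refine ⟨val h col ξ₀ T, η, ?_, hsp.1, ?_⟩
  · intro heq
    exact hη ⟨T, heq⟩
  · intro n m hnm
    have h1 : ∃ m' t', C m t' m' := ⟨n, T, hnm⟩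
    have h2 : s m = some h1.choose := dif_pos h1
    rw [hsp.2 m _ h2]
    exact hs m _ h2

end

end Pool.Agent.Lib.MP_df1441_gt
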