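import Pool.Agent.Lib.MP_df1441_gt.Z.Poset

/-!
# Amalgamation
-/

set_option autoImplicit false

open Cardinal

namespace Pool.Agent.Lib.MP_df1441_gt

section

variable {κ Ω Nm I : Type}

/-- the code of `δ` -/
def dcode (p : Pre κ Ω Nm) (h : ℕ → κ ⊕ Nm) (n m : ℕ) : Option Ω :=
  match h n, h m with
  | Sum.inl x, Sum.inl y => p.δ x y
  | _, _ => none

/-- the code of `F` -/
def fcode (p : Pre κ Ω Nm) (h : ℕ → κ ⊕ Nm) (n m : ℕ) : Option (Bool × Ω) :=
  match h n, h m with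
  | Sum.inr B, Sum.inl x => p.F B x
  | _, _ => none

theorem dcode_eq {p : Pre κ Ω Nm} {h : ℕ → κ ⊕ Nm} {n m : ℕ} {x y : κ} (hn : h n = Sum.inl x)
    (hm : h m = Sum.inl y) : dcode p h n m = p.δ x y := by
  unfold dcode
  rw [hn, hm]

theorem fcode_eq {p : Pre κ Ω Nm} {h : ℕ → κ ⊕ Nm} {n m : ℕ} {B : Nm} {x : κ}
    (hn : h n = Sum.inr B) (hm : h m = Sum.inl x) : fcode p h n m = p.F B x := by
  unfold fcode
  rw [hn, hm]

theorem mk_col_le (hΩ : #Ω ≤ 𝔠) :
    #((ℕ → ℕ → Option Ω) × (ℕ → ℕ → Option (Bool × Ω)) × (ℕ → ℕ → Prop) × Ω) ≤ 𝔠 := by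
  have key : ∀ V : Type, #V ≤ 𝔠 → #(ℕ → V) ≤ 𝔠 := by
    intro V hV
    rw [← power_def, mk_nat]
    calc #V ^ ℵ₀ ≤ 𝔠 ^ ℵ₀ := power_le_power_right hV
      _ = 𝔠 := continuum_power_aleph0
  have hopt : ∀ V : Type, #V ≤ 𝔠 → #(Option V) ≤ 𝔠 := by
    intro V hV
    rw [mk_option]
    calc #V + 1 ≤ 𝔠 + 𝔠 := by
          gcongr
          exact_mod_cast (nat_lt_continuum 1).le
      _ = 𝔠 := by simp
  have hprod : ∀ V W : Type, #V ≤ 𝔠 → #W ≤ 𝔠 → #(V × W) ≤ 𝔠 := by
    intro V W hV hW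
    rw [mk_prod, lift_id, lift_id]
    calc #V * #W ≤ 𝔠 * 𝔠 := by gcongr
      _ = 𝔠 := continuum_mul_self
  have hbool : #Bool ≤ 𝔠 := by
    rw [mk_bool]
    exact_mod_cast (nat_lt_continuum 2).le
  have hprop : #Prop ≤ 𝔠 := by
    rw [mk_Prop]
    exact_mod_cast (nat_lt_continuum 2).le
  refine hprod _ _ (key _ (key _ (hopt _ hΩ))) (hprod _ _ (key _ (key _ (hopt _ (hprod _ _ hbool hΩ))))
    (hprod _ _ (key _ (key _ hprop)) hΩ))

variable [LinearOrder Ω] {cd : Nm → κ → I → Pre κ Ω Nm × Bool} {o : Ω}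

/-- amalgamation of two members of a large family of conditions, with a prescribed value of `δ` -/
theorem Cond.amalg (hκ : 𝔠 < #κ) (hΩ : #Ω ≤ 𝔠) (p : κ → Cond cd o) (bb : κ → Ω) :
    ∃ ξ η : κ, ξ ≠ η ∧ bb ξ = bb η ∧ ∀ γ : Ω, ∃ q : Cond cd o, q ≤ p ξ ∧ q ≤ p η ∧
      q.1.δ ξ η = some γ := by
  classical
  have hsupp := fun ξ => (p ξ).exists_supp ξ
  choose h h0 hδ hF using hsupp
  obtain ⟨ξ, η, hne, hcol, hag⟩ := exists_agree hκ (mk_col_le hΩ) h
    (fun ξ => (dcode (p ξ).1 (h ξ), fcode (p ξ).1 (h ξ), fun n m => h ξ n = h ξ m, bb ξ))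
  obtain ⟨hc1, hc'⟩ := Prod.mk.inj hcol
  obtain ⟨hc2, hc''⟩ := Prod.mk.inj hc'
  obtain ⟨hc3, hc4⟩ := Prod.mk.inj hc''
  have hc3' : ∀ n m, (h ξ n = h ξ m) ↔ (h η n = h η m) := fun n m =>
    iff_of_eq (congrFun (congrFun hc3 n) m)
  -- common elements have a common index
  have hcom : ∀ z, (∃ n, h ξ n = z) → (∃ m, h η m = z) → ∃ k, h ξ k = z ∧ h η k = z := by
    rintro z ⟨n, hn⟩ ⟨m, hm⟩
    have h1 := hag n m (hn.trans hm.symm)
    exact ⟨m, h1.trans hm, hm⟩
  have hagδ : ∀ x y, (∃ n, h ξ n = Sum.inl x) → (∃ n, h η n = Sum.inl x) →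
      (∃ n, h ξ n = Sum.inl y) → (∃ n, h η n = Sum.inl y) → (p ξ).1.δ x y = (p η).1.δ x y := by
    intro x y hx hx' hy hy'
    obtain ⟨k, hk, hk'⟩ := hcom _ hx hx'
    obtain ⟨l, hl, hl'⟩ := hcom _ hy hy'
    have h1 := congrFun (congrFun hc1 k) l
    rwa [dcode_eq hk hl, dcode_eq hk' hl'] at h1
  have hagF : ∀ B x, (∃ n, h ξ n = Sum.inr B) → (∃ n, h η n = Sum.inr B) →
      (∃ n, h ξ n = Sum.inl x) → (∃ n, h η n = Sum.inl x) → (p ξ).1.F B x = (p η).1.F B x := by
    intro B x hx hx' hy hy'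
    obtain ⟨k, hk, hk'⟩ := hcom _ hx hx'
    obtain ⟨l, hl, hl'⟩ := hcom _ hy hy'
    have h1 := congrFun (congrFun hc2 k) l
    rwa [fcode_eq hk hl, fcode_eq hk' hl'] at h1
  have hξ : ¬ ∃ n, h η n = Sum.inl ξ := by
    intro hcon
    obtain ⟨k, hk, hk'⟩ := hcom _ ⟨0, h0 ξ⟩ hcon
    have h1 := (hc3' k 0).1 (hk.trans (h0 ξ).symm)
    rw [hk', h0 η] at h1
    exact hne (Sum.inl.inj h1)
  have hη : ¬ ∃ n, h ξ n = Sum.inl η := by
    intro hcon
    obtain ⟨k, hk, hk'⟩ := hcom _ hcon ⟨0, h0 η⟩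
    have h1 := (hc3' k 0).2 (hk'.trans (h0 η).symm)
    rw [hk, h0 ξ] at h1
    exact hne (Sum.inl.inj h1).symm
  -- supports
  have sδ : ∀ ζ x y c, (p ζ).1.δ x y = some c →
      (∃ n, h ζ n = Sum.inl x) ∧ ∃ n, h ζ n = Sum.inl y := by
    intro ζ x y c hc
    exact hδ ζ x y (by rw [hc]; exact Option.some_ne_none _)
  have sF : ∀ ζ B x v, (p ζ).1.F B x = some v →
      (∃ n, h ζ n = Sum.inr B) ∧ ∃ n, h ζ n = Sum.inl x := by
    intro ζ B x v hc
    exact hF ζ B x (by rw [hc]; exact Option.some_ne_none _)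
  refine ⟨ξ, η, hne, hc4, fun γ => ?_⟩
  let δ' : κ → κ → Option Ω := fun x y =>
    if x = ξ ∧ y = η then some γ else
      match (p ξ).1.δ x y with
      | some c => some c
      | none => (p η).1.δ x y
  let F' : Nm → κ → Option (Bool × Ω) := fun B x =>
      match (p ξ).1.F B x with
      | some c => some c
      | none => (p η).1.F B x
  have dδ : ∀ x y c, δ' x y = some c → (x = ξ ∧ y = η ∧ c = γ) ∨ (p ξ).1.δ x y = some c ∨
      (p η).1.δ x y = some c := by
    intro x y c hc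
    change (if x = ξ ∧ y = η then some γ else
      match (p ξ).1.δ x y with
      | some c => some c
      | none => (p η).1.δ x y) = some c at hc
    split_ifs at hc with h1
    · exact Or.inl ⟨h1.1, h1.2, (Option.some.inj hc).symm⟩
    · cases h2 : (p ξ).1.δ x y with
      | some c' =>
        rw [h2] at hc
        exact Or.inr (Or.inl hc)
      | none =>
        rw [h2] at hc
        exact Or.inr (Or.inr hc)
  have dF : ∀ B x v, F' B x = some v → (p ξ).1.F B x = some v ∨ (p η).1.F B x = some v := by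
    intro B x v hc
    change (match (p ξ).1.F B x with
      | some c => some c
      | none => (p η).1.F B x) = some v at hc
    cases h2 : (p ξ).1.F B x with
    | some c' =>
      rw [h2] at hc
      exact Or.inl hc
    | none =>
      rw [h2] at hc
      exact Or.inr hc
  have l1 : ∀ x y c, (p ξ).1.δ x y = some c → δ' x y = some c := by
    intro x y c hc
    change (if x = ξ ∧ y = η then some γ else
      match (p ξ).1.δ x y with
      | some c => some c
      | none => (p η).1.δ x y) = some c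
    rw [if_neg, hc]
    rintro ⟨rfl, rfl⟩
    exact hη (sδ _ _ _ _ hc).2
  have l2 : ∀ x y c, (p η).1.δ x y = some c → δ' x y = some c := by
    intro x y c hc
    cases h2 : (p ξ).1.δ x y with
    | some c' =>
      have h3 := sδ _ _ _ _ hc
      have h4 := sδ _ _ _ _ h2
      have h5 := hagδ x y h4.1 h3.1 h4.2 h3.2
      rw [hc] at h5
      exact l1 x y c h5
    | none =>
      change (if x = ξ ∧ y = η then some γ else
        match (p ξ).1.δ x y with
        | some c => some c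
        | none => (p η).1.δ x y) = some c
      rw [if_neg, h2]
      · exact hc
      · rintro ⟨rfl, rfl⟩
        exact hξ (sδ _ _ _ _ hc).1
  have l3 : ∀ B x v, (p ξ).1.F B x = some v → F' B x = some v := by
    intro B x v hc
    change (match (p ξ).1.F B x with
      | some c => some c
      | none => (p η).1.F B x) = some v
    rw [hc]
  have l4 : ∀ B x v, (p η).1.F B x = some v → F' B x = some v := by
    intro B x v hc
    cases h2 : (p ξ).1.F B x with
    | some c' =>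
      have h3 := sF _ _ _ _ hc
      have h4 := sF _ _ _ _ h2
      have h5 := hagF B x h4.1 h3.1 h4.2 h3.2
      rw [hc] at h5
      exact l3 B x v h5
    | none =>
      change (match (p ξ).1.F B x with
        | some c => some c
        | none => (p η).1.F B x) = some v
      rw [h2]
      exact hc
  let q : Pre κ Ω Nm := ⟨δ', F', by
    refine (((p ξ).1.hδ.union (p η).1.hδ).union (Set.countable_singleton (ξ, η))).mono ?_
    rintro ⟨x, y⟩ hxy
    obtain ⟨c, hc⟩ := Option.ne_none_iff_exists'.1 hxy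
    rcases dδ x y c hc with h1 | h1 | h1
    · right
      rw [Set.mem_singleton_iff, h1.1, h1.2.1]
    · left; left
      change (p ξ).1.δ x y ≠ none
      rw [h1]
      exact Option.some_ne_none _
    · left; right
      change (p η).1.δ x y ≠ none
      rw [h1]
      exact Option.some_ne_none _, by
    refine ((p ξ).1.hF.union (p η).1.hF).mono ?_
    rintro ⟨B, x⟩ hxy
    obtain ⟨c, hc⟩ := Option.ne_none_iff_exists'.1 hxy
    rcases dF B x c hc with h1 | h1
    · left
      change (p ξ).1.F B x ≠ none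
      rw [h1]
      exact Option.some_ne_none _
    · right
      change (p η).1.F B x ≠ none
      rw [h1]
      exact Option.some_ne_none _⟩
  have hq1 : q ≤ (p ξ).1 := ⟨l1, l3⟩
  have hq2 : q ≤ (p η).1 := ⟨l2, l4⟩
  refine ⟨⟨q, ⟨?_, ?_, ?_⟩⟩, hq1, hq2, ?_⟩
  · intro B x b β h1
    rcases dF B x _ h1 with h1 | h1
    · exact (p ξ).2.pos B x b β h1
    · exact (p η).2.pos B x b β h1
  · intro B x b β h1
    rcases dF B x _ h1 with h1 | h1
    · obtain ⟨i, hi, hi'⟩ := (p ξ).2.dec B x b β h1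
      exact ⟨i, hi, hq1.trans hi'⟩
    · obtain ⟨i, hi, hi'⟩ := (p η).2.dec B x b β h1
      exact ⟨i, hi, hq2.trans hi'⟩
  · intro B x y b β b' β' c h1 h2 h3 h4
    rcases dF B x _ h1 with g1 | g1 <;> rcases dF B y _ h2 with g2 | g2
    · -- both from `p ξ`
      have s1 := sF _ _ _ _ g1
      have s2 := sF _ _ _ _ g2
      rcases dδ x y c h4 with h4 | h4 | h4
      · exact (hη (h4.2.1 ▸ s2.2)).elim
      · exact (p ξ).2.sep B x y b β b' β' c g1 g2 h3 h4
      · have s3 := sδ _ _ _ _ h4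
        rw [← hagδ x y s1.2 s3.1 s2.2 s3.2] at h4
        exact (p ξ).2.sep B x y b β b' β' c g1 g2 h3 h4
    · -- `x` from `p ξ`, `y` from `p η`
      have s1 := sF _ _ _ _ g1
      have s2 := sF _ _ _ _ g2
      rcases dδ x y c h4 with h4 | h4 | h4
      · exfalso
        obtain ⟨rfl, rfl, _⟩ := h4
        obtain ⟨k, hk, hk'⟩ := hcom _ s1.1 s2.1
        have h5 := congrFun (congrFun hc2 k) 0
        rw [fcode_eq hk (h0 _), fcode_eq hk' (h0 _), g1, g2] at h5
        exact h3 (Prod.mk.inj (Option.some.inj h5)).1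
      · have s3 := sδ _ _ _ _ h4
        rw [← hagF B y s1.1 s2.1 s3.2 s2.2] at g2
        exact (p ξ).2.sep B x y b β b' β' c g1 g2 h3 h4
      · have s3 := sδ _ _ _ _ h4
        rw [hagF B x s1.1 s2.1 s1.2 s3.1] at g1
        exact (p η).2.sep B x y b β b' β' c g1 g2 h3 h4
    · -- `x` from `p η`, `y` from `p ξ`
      have s1 := sF _ _ _ _ g1
      have s2 := sF _ _ _ _ g2
      rcases dδ x y c h4 with h4 | h4 | h4
      · exact (hξ (h4.1 ▸ s1.2)).elim
      · have s3 := sδ _ _ _ _ h4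
        rw [← hagF B x s2.1 s1.1 s3.1 s1.2] at g1
        exact (p ξ).2.sep B x y b β b' β' c g1 g2 h3 h4
      · have s3 := sδ _ _ _ _ h4
        rw [hagF B y s2.1 s1.1 s2.2 s3.2] at g2
        exact (p η).2.sep B x y b β b' β' c g1 g2 h3 h4
    · -- both from `p η`
      have s1 := sF _ _ _ _ g1
      have s2 := sF _ _ _ _ g2
      rcases dδ x y c h4 with h4 | h4 | h4
      · exact (hξ (h4.1 ▸ s1.2)).elim
      · have s3 := sδ _ _ _ _ h4
        rw [hagδ x y s3.1 s1.2 s3.2 s2.2] at h4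
        exact (p η).2.sep B x y b β b' β' c g1 g2 h3 h4
      · exact (p η).2.sep B x y b β b' β' c g1 g2 h3 h4
  · change (if ξ = ξ ∧ η = η then some γ else _) = some γ
    rw [if_pos ⟨rfl, rfl⟩]

end

end Pool.Agent.Lib.MP_df1441_gt
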