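import Mathlib

/-!
# Definitions: covering properties, forcing clauses
-/

set_option autoImplicit false

namespace Pool.Agent.Lib.MP_df1441_gt

section Cover

/-- subnormal: disjoint closed sets can be put into disjoint `G_δ`-sets -/
def Subnormal (X : Type) [TopologicalSpace X] : Prop :=
  ∀ S F : Set X, IsClosed S → IsClosed F → Disjoint S F →
    ∃ A B : Set X, IsGδ A ∧ IsGδ B ∧ S ⊆ A ∧ F ⊆ B ∧ Disjoint A B

/-- metacompact: each open cover has a point-finite open refinement -/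
def Metacompact (X : Type) [TopologicalSpace X] : Prop :=
  ∀ 𝒰 : Set (Set X), (∀ U ∈ 𝒰, IsOpen U) → ⋃₀ 𝒰 = Set.univ →
    ∃ 𝒱 : Set (Set X), (∀ V ∈ 𝒱, IsOpen V ∧ ∃ U ∈ 𝒰, V ⊆ U) ∧ ⋃₀ 𝒱 = Set.univ ∧
      ∀ x : X, {V ∈ 𝒱 | x ∈ V}.Finite

/-- submetacompact: each open cover has a `θ`-refinement -/
def Submetacompact (X : Type) [TopologicalSpace X] : Prop :=
  ∀ 𝒰 : Set (Set X), (∀ U ∈ 𝒰, IsOpen U) → ⋃₀ 𝒰 = Set.univ →
    ∃ 𝒱 : ℕ → Set (Set X),
      (∀ n, ∀ V ∈ 𝒱 n, IsOpen V ∧ ∃ U ∈ 𝒰, V ⊆ U) ∧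
      (∀ n, ⋃₀ 𝒱 n = Set.univ) ∧
      ∀ x : X, ∃ n, {V ∈ 𝒱 n | x ∈ V}.Finite

/-- subparacompact: each open cover has a `σ`-discrete closed refinement which covers the space -/
def Subparacompact (X : Type) [TopologicalSpace X] : Prop :=
  ∀ 𝒰 : Set (Set X), (∀ U ∈ 𝒰, IsOpen U) → ⋃₀ 𝒰 = Set.univ →
    ∃ 𝒱 : ℕ → Set (Set X),
      (∀ n, ∀ V ∈ 𝒱 n, IsClosed V ∧ ∃ U ∈ 𝒰, V ⊆ U) ∧
      (∀ n, ∀ x : X, ∃ W ∈ nhds x, {V ∈ 𝒱 n | (W ∩ V).Nonempty}.Subsingleton) ∧
      ∀ x : X, ∃ n, ∃ V ∈ 𝒱 n, x ∈ V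

theorem Metacompact.submetacompact {X : Type} [TopologicalSpace X] (h : Metacompact X) :
    Submetacompact X := by
  intro 𝒰 h1 h2
  obtain ⟨𝒱, h3, h4, h5⟩ := h 𝒰 h1 h2
  exact ⟨fun _ => 𝒱, fun _ => h3, fun _ => h4, fun x => ⟨0, h5 x⟩⟩

end Cover

section Clauses

/-! Truth values of the forcing relation are predicates on the conditions. -/

variable {P : Type} [Preorder P]

/-- a statement about ground model objects which does not depend on the generic filter -/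
def fCheck (P : Type) (a : Prop) : P → Prop := fun _ => a

/-- `p ⊩ φ ∧ ψ` -/
def fAnd (φ ψ : P → Prop) : P → Prop := fun p => φ p ∧ ψ p

/-- `p ⊩ φ → ψ` -/
def fImp (φ ψ : P → Prop) : P → Prop := fun p => ∀ q ≤ p, φ q → ψ q

/-- `p ⊩ ¬ φ` -/
def fNot (φ : P → Prop) : P → Prop := fun p => ∀ q ≤ p, ¬ φ q

/-- `p ⊩ ∀ i, φ i` -/
def fAll {I : Type} (φ : I → P → Prop) : P → Prop := fun p => ∀ i, φ i p

/-- `p ⊩ ∃ i, φ i` -/
def fEx {I : Type} (φ : I → P → Prop) : P → Prop := fun p => ∀ q ≤ p, ∃ r ≤ q, ∃ i, φ i r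

/-- A name for a subset of the ground model set `X`: `mem x p` means `p ⊩ x ∈ S`.  It is inherited
by stronger conditions, and holds at `p` if it holds densely below `p`. -/
structure SetName (P : Type) [Preorder P] (X : Type) where
  mem : X → P → Prop
  mono : ∀ x p q, q ≤ p → mem x p → mem x q
  dense : ∀ x p, (∀ q ≤ p, ∃ r ≤ q, mem x r) → mem x p

/-- `p ⊩ f is a function from X to Y` (`f` is a name for a subset of `X × Y`) -/
def fFun {X Y : Type} (f : SetName P (X × Y)) : P → Prop :=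
  fAnd (fAll fun x : X => fEx fun y : Y => f.mem (x, y))
    (fAll fun x : X => fAll fun y : Y => fAll fun z : Y =>
      fImp (f.mem (x, y)) (fImp (f.mem (x, z)) (fCheck P (y = z))))

/-- `p ⊩ there is a sequence (E_ξ), ξ ∈ Ω, of subsets of ℕ such that each x ⊆ ℕ is some E_ξ` -/
def fCH (P : Type) [Preorder P] (Ω : Type) : P → Prop :=
  fEx fun E : SetName P (Ω × ℕ) => fAll fun x : SetName P ℕ => fEx fun ξ : Ω =>
    fAll fun n : ℕ => fAnd (fImp (x.mem n) (E.mem (ξ, n))) (fImp (E.mem (ξ, n)) (x.mem n))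

/-- `p ⊩ for each B ⊆ κ there is f : κ → Ω with D (x, y) < max (f x) (f y) for all x ∈ B and
y ∉ B` -/
def fSep {κ Ω : Type} [LinearOrder Ω] (D : SetName P ((κ × κ) × Ω)) : P → Prop :=
  fAll fun B : SetName P κ => fEx fun f : SetName P (κ × Ω) => fAnd (fFun f)
    (fAll fun x : κ => fAll fun y : κ => fAll fun a : Ω => fAll fun b : Ω => fAll fun c : Ω =>
      fImp (B.mem x) (fImp (fNot (B.mem y)) (fImp (f.mem (x, a)) (fImp (f.mem (y, b))
        (fImp (D.mem ((x, y), c)) (fCheck P (c < max a b)))))))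

/-- `p ⊩ there is f : κ → Ω with D (x, y) ≤ max (f x) (f y) for all x ≠ y` -/
def fAllSep {κ Ω : Type} [LinearOrder Ω] (D : SetName P ((κ × κ) × Ω)) : P → Prop :=
  fEx fun f : SetName P (κ × Ω) => fAnd (fFun f)
    (fAll fun x : κ => fAll fun y : κ => fAll fun a : Ω => fAll fun b : Ω => fAll fun c : Ω =>
      fImp (fCheck P (x ≠ y)) (fImp (f.mem (x, a)) (fImp (f.mem (y, b))
        (fImp (D.mem ((x, y), c)) (fCheck P (c ≤ max a b))))))

/-- `p ⊩` the reals can be enumerated by `Ω`, and there is a function `D : κ × κ → Ω` such that the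
set `κ` is not separated by `D`, but each subset of `κ` is separated from its complement -/
def fHyp (P : Type) [Preorder P] (κ Ω : Type) [LinearOrder Ω] : P → Prop :=
  fAnd (fCH P Ω) (fEx fun D : SetName P ((κ × κ) × Ω) =>
    fAnd (fFun D) (fAnd (fSep D) (fNot (fAllSep D))))

end Clauses

end Pool.Agent.Lib.MP_df1441_gt
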