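import Pool.Agent.Lib.MP_df1441_gt.Z.Names

/-!
# The forcing theorem
-/

set_option autoImplicit false

open Cardinal

namespace Pool.Agent.Lib.MP_df1441_gt

section

variable {P : Type} [Preorder P] {X Y : Type}

/-- the name generated by a monotone family -/
def close (base : X → P → Prop) : SetName P X where
  mem x p := ∀ q ≤ p, ∃ r ≤ q, base x r
  mono _ _ _ hq h := fun q' hq' => h q' (hq'.trans hq)
  dense x p h := by
    intro q hq
    obtain ⟨r, hr, hr'⟩ := h q hq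
    obtain ⟨s, hs, hs'⟩ := hr' r le_rfl
    exact ⟨s, hs.trans hr, hs'⟩

theorem close_of_base {base : X → P → Prop} (hm : ∀ x p q, q ≤ p → base x p → base x q) {x : X}
    {p : P} (h : base x p) : (close base).mem x p :=
  fun q hq => ⟨q, le_rfl, hm x p q hq h⟩

theorem exists_base {base : X → P → Prop} {x : X} {p : P} (h : (close base).mem x p) :
    ∃ r ≤ p, base x r := h p le_rfl

/-- functional names -/
theorem fFun_close {base : X × Y → P → Prop} (hm : ∀ z p q, q ≤ p → base z p → base z q)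
    (ht : ∀ x p, ∃ q ≤ p, ∃ y, base (x, y) q)
    (hu : ∀ x y z p, base (x, y) p → base (x, z) p → y = z) (p : P) : fFun (close base) p := by
  constructor
  · intro x q _
    obtain ⟨r, hr, y, hy⟩ := ht x q
    exact ⟨r, hr, y, close_of_base hm hy⟩
  · intro x y z q _ hy r hr hz
    have hy' := (close base).mono _ _ _ hr hy
    obtain ⟨s, hs, hs'⟩ := exists_base hy'
    obtain ⟨t, ht, ht'⟩ := exists_base ((close base).mono _ _ _ hs hz)
    exact hu x y z t (hm _ _ _ ht hs') ht'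

end

section

variable {κ Ω Nm I : Type} [LinearOrder Ω] {cd : Nm → κ → I → Pre κ Ω Nm × Bool} {o : Ω}

/-- a new row of `δ` -/
theorem Cond.ext_row (p : Cond cd o) (x : κ) (hx : ∀ B, p.1.F B x = none)
    (hδ : ∀ y, p.1.δ x y = none) (f : κ → Option Ω) (hf : {y | f y ≠ none}.Countable) :
    ∃ q ≤ p, ∀ y c, f y = some c → q.1.δ x y = some c := by
  classical
  let q : Pre κ Ω Nm := ⟨fun x' y' => if x' = x then f y' else p.1.δ x' y', p.1.F, by
    refine (p.1.hδ.union (hf.image fun y => (x, y))).mono ?_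
    rintro ⟨x', y'⟩ h'
    by_cases h1 : x' = x
    · right
      subst h1
      refine ⟨y', ?_, rfl⟩
      simpa using h'
    · left
      simpa [h1] using h', p.1.hF⟩
  have hqp : q ≤ p.1 := by
    refine ⟨fun x' y' c h => ?_, fun _ _ _ h => h⟩
    change (if x' = x then f y' else p.1.δ x' y') = some c
    rw [if_neg, h]
    rintro rfl
    rw [hδ y'] at h
    cases h
  refine ⟨⟨q, ⟨p.2.pos, fun B x' b β h' => ?_, ?_⟩⟩, hqp, ?_⟩
  · obtain ⟨i, hi, hi'⟩ := p.2.dec B x' b β h'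
    exact ⟨i, hi, hqp.trans hi'⟩
  · intro B x' y' b β b' β' c' h1 h2 h3 h4
    have h5 : x' ≠ x := by
      rintro rfl
      have h1' : p.1.F B x' = some (b, β) := h1
      rw [hx B] at h1'
      cases h1'
    change (if x' = x then f y' else p.1.δ x' y') = some c' at h4
    rw [if_neg h5] at h4
    exact p.2.sep B x' y' b β b' β' c' h1 h2 h3 h4
  · intro y c h
    change (if x = x then f y else p.1.δ x y) = some c
    rw [if_pos rfl, h]

/-- the reals of the extension are in the ground model -/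
theorem Cond.exists_decide (x : SetName (Cond cd o) ℕ) (p : Cond cd o) :
    ∃ q ≤ p, ∃ r : ℕ → Bool, ∀ n, ∀ q' ≤ q, (x.mem n q' ↔ r n = true) := by
  classical
  have hdec : ∀ (n : ℕ) (p : Cond cd o), ∃ q ≤ p, x.mem n q ∨ ∀ q' ≤ q, ¬ x.mem n q' := by
    intro n p
    by_cases h : ∃ q ≤ p, x.mem n q
    · obtain ⟨q, hq, h⟩ := h
      exact ⟨q, hq, Or.inl h⟩
    · push Not at h
      exact ⟨p, le_rfl, Or.inr h⟩
  choose g hg1 hg2 using hdec
  let s : ℕ → Cond cd o := fun n => Nat.rec p (fun n q => g n q) n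
  have hs : ∀ n, s (n + 1) = g n (s n) := fun n => rfl
  obtain ⟨q, hq⟩ := Cond.exists_lower s (fun n => by rw [hs]; exact hg1 _ _)
  refine ⟨q, hq 0, fun n => decide (x.mem n q), fun n q' hq' => ?_⟩
  have h1 := hg2 n (s n)
  rw [← hs] at h1
  simp only [decide_eq_true_eq]
  refine ⟨fun h => ?_, fun h => x.mono n q q' hq' h⟩
  rcases h1 with h1 | h1
  · exact x.mono n _ _ (hq (n + 1)) h1
  · exact absurd h (h1 q' (hq'.trans (hq (n + 1))))

/-- the forcing adds an enumeration of the reals -/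
theorem Cond.fCH (hΩu : ¬ Countable Ω) (o' : Ω) (ho : o' ≠ o) (a : Ω → κ)
    (ha : Function.Injective a) (b : ℕ → κ) (hb : Function.Injective b) (p : Cond cd o) :
    fCH (Cond cd o) Ω p := by
  classical
  have hm : ∀ (z : Ω × ℕ) (p q : Cond cd o), q ≤ p → p.1.δ (a z.1) (b z.2) = some o →
      q.1.δ (a z.1) (b z.2) = some o := fun z p q hq h => hq.1 _ _ _ h
  intro p₁ _
  refine ⟨p₁, le_rfl, close (fun (z : Ω × ℕ) (q : Cond cd o) => q.1.δ (a z.1) (b z.2) = some o),
    fun x q _ => ?_⟩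
  obtain ⟨q', hq', r, hr⟩ := Cond.exists_decide x q
  -- a free index
  have hcount : {ν : Ω | ¬ ((∀ B, q'.1.F B (a ν) = none) ∧ ∀ y, q'.1.δ (a ν) y = none)}.Countable := by
    have h1 := (q'.1.hF.image Prod.snd).union (q'.1.hδ.image Prod.fst)
    refine Set.MapsTo.countable_of_injOn (f := a) ?_ ha.injOn h1
    intro ν hν
    have hν' : ¬ ((∀ B, q'.1.F B (a ν) = none) ∧ ∀ y, q'.1.δ (a ν) y = none) := hν
    rw [not_and_or] at hν'
    rcases hν' with h | h
    · push Not at h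
      obtain ⟨B, hB⟩ := h
      exact Or.inl ⟨(B, a ν), hB, rfl⟩
    · push Not at h
      obtain ⟨y, hy⟩ := h
      exact Or.inr ⟨(a ν, y), hy, rfl⟩
  have hex : ∃ ν : Ω, (∀ B, q'.1.F B (a ν) = none) ∧ ∀ y, q'.1.δ (a ν) y = none := by
    by_contra hcon
    push Not at hcon
    apply hΩu
    rw [← Set.countable_univ_iff]
    refine hcount.mono fun ν _ => ?_
    rintro ⟨h1, h2⟩
    obtain ⟨y, hy⟩ := hcon ν h1
    exact hy (h2 y)
  obtain ⟨ν, hν1, hν2⟩ := hex
  let f : κ → Option Ω := fun y => if h : ∃ n, b n = y then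
    some (if r h.choose then o else o') else none
  have hfb : ∀ n, f (b n) = some (if r n then o else o') := by
    intro n
    have h : ∃ m, b m = b n := ⟨n, rfl⟩
    change (if h : ∃ m, b m = b n then some (if r h.choose then o else o') else none) = _
    rw [dif_pos h, hb h.choose_spec]
  have hf : {y | f y ≠ none}.Countable := by
    refine (Set.countable_range b).mono ?_
    intro y hy
    by_contra hcon
    apply hy
    exact dif_neg hcon
  obtain ⟨q'', hq'', h⟩ := q'.ext_row (a ν) hν1 hν2 f hf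
  refine ⟨q'', hq''.trans hq', ν, fun n => ⟨?_, ?_⟩⟩
  · intro t ht hx
    have h1 := (hr n t (ht.trans hq'')).1 hx
    refine close_of_base (x := (ν, n)) hm ?_
    have h2 := h _ _ (hfb n)
    rw [if_pos h1] at h2
    exact ht.1 _ _ _ h2
  · intro t ht hE
    obtain ⟨s, hs, hs'⟩ := exists_base hE
    have h2 := (hs.trans ht).1 _ _ _ (h _ _ (hfb n))
    change s.1.δ (a ν) (b n) = some o at hs'
    rw [h2] at hs'
    have h3 : r n = true := by
      by_contra hcon
      rw [if_neg hcon] at hs'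
      exact ho (Option.some.inj hs')
    exact (hr n t (ht.trans hq'')).2 h3

/-- the base of the name of the separating function -/
def bD (z : (κ × κ) × Ω) (p : Cond cd o) : Prop := p.1.δ z.1.1 z.1.2 = some z.2

/-- the base of the name of the function which separates the set with name `B` -/
def bF (B : Nm) (z : κ × Ω) (p : Cond cd o) : Prop := ∃ b, p.1.F B z.1 = some (b, z.2)

theorem bD_mono (z : (κ × κ) × Ω) (p q : Cond cd o) (hq : q ≤ p) (h : bD z p) : bD z q :=
  hq.1 _ _ _ h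

theorem bF_mono (B : Nm) (z : κ × Ω) (p q : Cond cd o) (hq : q ≤ p) (h : bF B z p) : bF B z q := by
  obtain ⟨b, hb⟩ := h
  exact ⟨b, hq.2 _ _ _ hb⟩

theorem fFun_D (p : Cond cd o) : fFun (close (bD (cd := cd) (o := o))) p := by
  refine fFun_close bD_mono ?_ ?_ p
  · rintro ⟨x, y⟩ p
    obtain ⟨q, hq, c, hc⟩ := p.total_δ x y
    exact ⟨q, hq, c, hc⟩
  · rintro x y z p h1 h2
    have h1' : p.1.δ x.1 x.2 = some y := h1
    have h2' : p.1.δ x.1 x.2 = some z := h2
    rw [h1'] at h2'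
    exact Option.some.inj h2'

/-- each subset of `κ` is separated from its complement -/
theorem fSep_D (hκ : #κ = Order.succ 𝔠) (hΩ : #Ω ≤ 𝔠) (hI : #I = 𝔠)
    (hcd : Function.Surjective cd) (hb : ∀ S : Set Ω, S.Countable → ∃ b, ∀ s ∈ S, s < b)
    (p : Cond cd o) : fSep (close (bD (cd := cd) (o := o))) p := by
  classical
  intro B' p₁ _
  -- decide the membership of each element
  have hdec : ∀ x : κ, ∃ c : I → Cond cd o,
      (∀ i, c i ∈ {q : Cond cd o | B'.mem x q ∨ ∀ q' ≤ q, ¬ B'.mem x q'}) ∧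
      ∀ p, ∃ i r, r ≤ p ∧ r ≤ c i := by
    intro x
    refine Cond.exists_predense hκ hΩ hI _ ?_
    intro q
    by_cases h : ∃ q' ≤ q, B'.mem x q'
    · obtain ⟨q', hq', h⟩ := h
      exact ⟨q', hq', Or.inl h⟩
    · push Not at h
      exact ⟨q, le_rfl, Or.inr h⟩
  choose c hc1 hc2 using hdec
  obtain ⟨B, hB⟩ := hcd (fun x i => ((c x i).1, decide (B'.mem x (c x i))))
  have hB1 : ∀ x i, (cd B x i).1 = (c x i).1 := fun x i => by rw [hB]
  have hB2 : ∀ x i, (cd B x i).2 = decide (B'.mem x (c x i)) := fun x i => by rw [hB]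
  refine ⟨p₁, le_rfl, close (bF B), ?_, ?_⟩
  · refine fFun_close (bF_mono B) ?_ ?_ p₁
    · intro x q
      obtain ⟨i, r, hr, hri⟩ := hc2 x q
      cases h : r.1.F B x with
      | some v => exact ⟨r, hr, v.2, v.1, h⟩
      | none =>
        obtain ⟨s, hs, β, hβ⟩ := r.ext_F hb B x i (by rw [hB1]; exact hri) h
        exact ⟨s, hs.trans hr, β, _, hβ⟩
    · rintro x y z q ⟨b, hb⟩ ⟨b', hb'⟩
      have h1 : q.1.F B x = some (b, y) := hb
      have h2 : q.1.F B x = some (b', z) := hb'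
      rw [h1] at h2
      exact (Prod.mk.inj (Option.some.inj h2)).2
  · intro x y a b γ q₁ _ hx q₂ hq₂ hy q₃ hq₃ hfa q₄ hq₄ hfb q₅ hq₅ hD
    change γ < max a b
    -- a condition which decides everything
    obtain ⟨r₁, hr₁, bx, hbx⟩ :=
      exists_base ((close (bF B)).mono _ _ q₅ (hq₅.trans hq₄) hfa)
    obtain ⟨r₂, hr₂, b_y, hby⟩ := exists_base ((close (bF B)).mono _ _ r₁ (hr₁.trans hq₅) hfb)
    obtain ⟨r₃, hr₃, hδ⟩ := exists_base ((close bD).mono _ _ r₂ (hr₂.trans hr₁) hD)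
    have e1 : r₃.1.F B x = some (bx, a) := (hr₃.trans hr₂).2 _ _ _ hbx
    have e2 : r₃.1.F B y = some (b_y, b) := hr₃.2 _ _ _ hby
    have e3 : r₃.1.δ x y = some γ := hδ
    have hle : r₃ ≤ q₂ := hr₃.trans (hr₂.trans (hr₁.trans (hq₅.trans (hq₄.trans hq₃))))
    have hbx' : bx = true := by
      obtain ⟨i, hi, hi'⟩ := r₃.2.dec B x bx a e1
      rw [hB1] at hi'
      have hi'' : r₃ ≤ c x i := hi'
      rw [hB2] at hi
      rw [← hi, decide_eq_true_eq]
      rcases hc1 x i with h | h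
      · exact h
      · exact absurd (B'.mono _ _ _ (hle.trans hq₂) hx) (h r₃ hi'')
    have hby' : b_y = false := by
      obtain ⟨i, hi, hi'⟩ := r₃.2.dec B y b_y b e2
      rw [hB1] at hi'
      have hi'' : r₃ ≤ c y i := hi'
      rw [hB2] at hi
      rw [← hi, decide_eq_false_iff_not]
      intro h
      exact hy r₃ hle (B'.mono _ _ _ hi'' h)
    exact r₃.2.sep B x y bx a b_y b γ e1 e2 (by rw [hbx', hby']; decide) e3

/-- `κ` is not separated -/
theorem fNot_fAllSep_D (hκ : 𝔠 < #κ) (hΩ : #Ω ≤ 𝔠)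
    (hb : ∀ S : Set Ω, S.Countable → ∃ b, ∀ s ∈ S, s < b)
    (p : Cond cd o) : fNot (fAllSep (close (bD (cd := cd) (o := o)))) p := by
  intro p₁ _ h
  obtain ⟨p₂, _, f, hf, hsep⟩ := h p₁ le_rfl
  -- decide the values of `f`
  have hdec : ∀ ξ : κ, ∃ q ≤ p₂, ∃ b, f.mem (ξ, b) q := by
    intro ξ
    exact hf.1 ξ p₂ le_rfl
  choose q hq b hqb using hdec
  obtain ⟨ξ, η, hne, hbb, ham⟩ := Cond.amalg hκ hΩ q b
  obtain ⟨γ, hγ⟩ := hb {b ξ} (Set.countable_singleton _)
  have hγ' : b ξ < γ := hγ _ rfl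
  obtain ⟨r, hr1, hr2, hr3⟩ := ham γ
  have hD : (close (bD (cd := cd) (o := o))).mem ((ξ, η), γ) r :=
    close_of_base bD_mono hr3
  have h1 : γ ≤ max (b ξ) (b η) :=
    hsep ξ η (b ξ) (b η) γ r (hr1.trans (hq ξ)) hne r le_rfl
      (f.mono _ _ _ hr1 (hqb ξ)) r le_rfl (f.mono _ _ _ hr2 (hqb η)) r le_rfl hD
  rw [← hbb, max_self] at h1
  exact absurd h1 (not_le.2 hγ')

end

/-- the forcing theorem -/
theorem exists_forcing : ∃ (Ω : Type) (_ : LinearOrder Ω) (κ : Type) (P : Type) (_ : Preorder P),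
    Nonempty P ∧ (∀ a : Ω, (Set.Iio a).Countable) ∧ ∀ p : P, fHyp P κ Ω p := by
  classical
  let Ω : Type := (ℵ₁ : Cardinal.{0}).ord.ToType
  let κ : Type := (Order.succ (𝔠 : Cardinal.{0})).ord.ToType
  have hΩ1 : #Ω = ℵ₁ := mk_ord_toType _
  have hκ1 : #κ = Order.succ 𝔠 := mk_ord_toType _
  have hΩ : #Ω ≤ 𝔠 := by
    rw [hΩ1]
    exact aleph_one_le_continuum
  have hκc : 𝔠 < #κ := by
    rw [hκ1]
    exact Order.lt_succ _
  have hI : #(Set ℕ) = (𝔠 : Cardinal.{0}) := by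
    rw [mk_set, mk_nat, two_power_aleph0]
  have hκ0 : ℵ₀ ≤ #κ := aleph0_le_continuum.trans hκc.le
  obtain ⟨cd, hcd⟩ := exists_cd (κ := κ) (Ω := Ω) (I := Set ℕ) hκ0 (hΩ.trans hκc.le)
    (by rw [hI]; exact hκc.le)
  have hcount : ∀ ξ : Ω, (Set.Iio ξ).Countable := by
    intro ξ
    have h := Cardinal.mk_Iio_toType_ord_lt ξ
    rw [Cardinal.lt_aleph_one_iff, Cardinal.mk_le_aleph0_iff] at h
    exact h
  have hΩu : ¬ Countable Ω := by
    intro h
    have h1 : #Ω ≤ ℵ₀ := mk_le_aleph0_iff.2 h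
    rw [hΩ1] at h1
    exact absurd h1 (not_le.2 aleph0_lt_aleph_one)
  have hb : ∀ S : Set Ω, S.Countable → ∃ b, ∀ s ∈ S, s < b := by
    intro S hS
    by_contra hcon
    push Not at hcon
    apply hΩu
    rw [← Set.countable_univ_iff]
    refine ((hS.biUnion fun s _ => hcount s).union hS).mono ?_
    intro b _
    obtain ⟨s, hs, hbs⟩ := hcon b
    rcases hbs.lt_or_eq with h | h
    · exact Or.inl (Set.mem_biUnion hs h)
    · exact Or.inr (h ▸ hs)
  obtain ⟨o, _⟩ := hb ∅ Set.countable_empty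
  obtain ⟨o', ho'⟩ := hb {o} (Set.countable_singleton _)
  have hoo : o' ≠ o := (ho' o rfl).ne'
  have ha : #Ω ≤ #κ := hΩ.trans hκc.le
  obtain ⟨a⟩ := ha
  have hbn : #ℕ ≤ #κ := by
    rw [mk_nat]
    exact hκ0
  obtain ⟨b⟩ := hbn
  refine ⟨Ω, inferInstance, κ, Cond cd o, inferInstance, ⟨Cond.empty cd o⟩, hcount, fun p =>
    ⟨Cond.fCH hΩu o' hoo a a.injective b b.injective p, fun q _ => ⟨q, le_rfl, close bD, fFun_D q,
      fSep_D hκ1 hΩ hI hcd hb q, fNot_fAllSep_D hκc hΩ hb q⟩⟩⟩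

end Pool.Agent.Lib.MP_df1441_gt
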