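import Pool.Agent.Lib.MP_df1441_gt.Z.Amalg

/-!
# The names, antichains
-/

set_option autoImplicit false

open Cardinal

namespace Pool.Agent.Lib.MP_df1441_gt

theorem exists_enum {A : Type} {S : Set A} (hS : S.Countable) :
    ∃ e : ℕ → Option A, ∀ a, a ∈ S ↔ ∃ n, e n = some a := by
  rcases S.eq_empty_or_nonempty with rfl | hne
  · exact ⟨fun _ => none, fun a => by simp⟩
  · obtain ⟨f, hf⟩ := hS.exists_eq_range hne
    refine ⟨fun n => some (f n), fun a => ?_⟩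
    rw [hf]
    simp

/-- the number of pre-conditions -/
theorem mk_pre_le {κ Ω Nm : Type} (hκ : ℵ₀ ≤ #κ) (hΩ : #Ω ≤ #κ) (hN : #Nm ≤ 2 ^ #κ) :
    #(Pre κ Ω Nm) ≤ 2 ^ #κ := by
  classical
  have hE : ∀ p : Pre κ Ω Nm, ∃ e : ℕ → Option (Nm × κ × (Bool × Ω)),
      ∀ B x v, p.F B x = some v ↔ ∃ n, e n = some (B, x, v) := by
    intro p
    have hS : {z : Nm × κ × (Bool × Ω) | p.F z.1 z.2.1 = some z.2.2}.Countable := by
      refine Set.MapsTo.countable_of_injOn (f := fun z => (z.1, z.2.1)) (t :=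
        {x : Nm × κ | p.F x.1 x.2 ≠ none}) ?_ ?_ p.hF
      · rintro ⟨B, x, v⟩ h
        change p.F B x ≠ none
        have h' : p.F B x = some v := h
        rw [h']
        exact Option.some_ne_none _
      · rintro ⟨B, x, v⟩ h ⟨B', x', v'⟩ h' heq
        obtain ⟨rfl, rfl⟩ := Prod.mk.inj heq
        have h1 : p.F B x = some v := h
        have h2 : p.F B x = some v' := h'
        rw [h1] at h2
        rw [Option.some.inj h2]
    obtain ⟨e, he⟩ := exists_enum hS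
    exact ⟨e, fun B x v => he (B, x, v)⟩
  choose E hE using hE
  have hinj : Function.Injective
      (fun p : Pre κ Ω Nm => (p.δ, E p) : Pre κ Ω Nm → (κ → κ → Option Ω) ×
        (ℕ → Option (Nm × κ × (Bool × Ω)))) := by
    intro p q hpq
    obtain ⟨h1, h2⟩ := Prod.mk.inj hpq
    have h3 : p.F = q.F := by
      funext B x
      apply Option.ext
      intro v
      have := hE p B x v
      have h' := hE q B x v
      rw [h2] at this
      exact this.trans h'.symm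
    cases p; cases q
    simp only at h1 h3
    subst h1 h3
    rfl
  refine (mk_le_of_injective hinj).trans ?_
  have hc2 : ℵ₀ ≤ 2 ^ #κ := hκ.trans (cantor _).le
  have hone : (1 : Cardinal) ≤ 2 ^ #κ := one_lt_aleph0.le.trans hc2
  have hopt : ∀ V : Type, #V ≤ 2 ^ #κ → #(Option V) ≤ 2 ^ #κ := by
    intro V hV
    rw [mk_option]
    calc #V + 1 ≤ 2 ^ #κ + 2 ^ #κ := by gcongr
      _ = 2 ^ #κ := add_eq_self hc2
  have hprod : ∀ V W : Type, #V ≤ 2 ^ #κ → #W ≤ 2 ^ #κ → #(V × W) ≤ 2 ^ #κ := by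
    intro V W hV hW
    rw [mk_prod, lift_id, lift_id]
    calc #V * #W ≤ 2 ^ #κ * 2 ^ #κ := by gcongr
      _ = 2 ^ #κ := mul_eq_self hc2
  have hfun : ∀ V W : Type, #V ≤ #κ → #W ≤ 2 ^ #κ → #(V → W) ≤ 2 ^ #κ := by
    intro V W hV hW
    rw [← power_def]
    calc #W ^ #V ≤ (2 ^ #κ) ^ #V := power_le_power_right hW
      _ ≤ (2 ^ #κ) ^ #κ := power_le_power_left (ne_of_gt (lt_of_lt_of_le one_pos hone)) hV
      _ = 2 ^ (#κ * #κ) := by rw [power_mul]
      _ = 2 ^ #κ := by rw [mul_eq_self hκ]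
  have hΩ' : #Ω ≤ 2 ^ #κ := hΩ.trans (cantor _).le
  have hκ' : #κ ≤ 2 ^ #κ := (cantor _).le
  have hB : #Bool ≤ 2 ^ #κ := by
    rw [mk_bool]
    exact (natCast_lt_aleph0 (n := 2)).le.trans hc2
  exact hprod _ _ (hfun _ _ le_rfl (hfun _ _ le_rfl (hopt _ hΩ')))
    (hfun _ _ (by rw [mk_nat]; exact hκ) (hopt _ (hprod _ _ hN (hprod _ _ hκ' (hprod _ _ hB hΩ')))))

/-- there is a complete system of names -/
theorem exists_cd {κ Ω I : Type} (hκ : ℵ₀ ≤ #κ) (hΩ : #Ω ≤ #κ) (hI : #I ≤ #κ) :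
    ∃ cd : Set κ → κ → I → Pre κ Ω (Set κ) × Bool, Function.Surjective cd := by
  classical
  have hc2 : ℵ₀ ≤ 2 ^ #κ := hκ.trans (cantor _).le
  have hone : (1 : Cardinal) ≤ 2 ^ #κ := one_lt_aleph0.le.trans hc2
  have h1 : #(Pre κ Ω (Set κ)) ≤ 2 ^ #κ := mk_pre_le hκ hΩ (by rw [mk_set])
  have h2 : #(κ → I → Pre κ Ω (Set κ) × Bool) ≤ #(Set κ) := by
    rw [mk_set]
    have hfun : ∀ V W : Type, #V ≤ #κ → #W ≤ 2 ^ #κ → #(V → W) ≤ 2 ^ #κ := by
      intro V W hV hW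
      rw [← power_def]
      calc #W ^ #V ≤ (2 ^ #κ) ^ #V := power_le_power_right hW
        _ ≤ (2 ^ #κ) ^ #κ := power_le_power_left (ne_of_gt (lt_of_lt_of_le one_pos hone)) hV
        _ = 2 ^ (#κ * #κ) := by rw [power_mul]
        _ = 2 ^ #κ := by rw [mul_eq_self hκ]
    refine hfun _ _ le_rfl (hfun _ _ hI ?_)
    rw [mk_prod, lift_id, lift_id]
    calc #(Pre κ Ω (Set κ)) * #Bool ≤ 2 ^ #κ * 2 ^ #κ := by
          gcongr
          rw [mk_bool]
          exact (natCast_lt_aleph0 (n := 2)).le.trans hc2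
      _ = 2 ^ #κ := mul_eq_self hc2
  obtain ⟨g⟩ := h2
  have hne : Nonempty (κ → I → Pre κ Ω (Set κ) × Bool) :=
    ⟨fun _ _ => (⟨fun _ _ => none, fun _ _ => none, by simp, by simp⟩, true)⟩
  exact ⟨Function.invFun g, Function.invFun_surjective g.injective⟩

section

variable {κ Ω Nm I : Type} [LinearOrder Ω] {cd : Nm → κ → I → Pre κ Ω Nm × Bool} {o : Ω}

/-- small predense families -/
theorem Cond.exists_predense (hκ : #κ = Order.succ 𝔠) (hΩ : #Ω ≤ 𝔠) (hI : #I = 𝔠)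
    (D : Set (Cond cd o)) (hD : ∀ p : Cond cd o, ∃ q ≤ p, q ∈ D) :
    ∃ c : I → Cond cd o, (∀ i, c i ∈ D) ∧ ∀ p, ∃ i r, r ≤ p ∧ r ≤ c i := by
  classical
  let 𝒜 : Set (Set (Cond cd o)) := {A | A ⊆ D ∧ ∀ a ∈ A, ∀ b ∈ A, ∀ r, r ≤ a → r ≤ b → a = b}
  obtain ⟨A, hA⟩ := zorn_subset 𝒜 (by
    intro c hc hchain
    refine ⟨⋃₀ c, ⟨Set.sUnion_subset fun s hs => (hc hs).1, ?_⟩, fun s hs =>
      Set.subset_sUnion_of_mem hs⟩
    rintro a ⟨s, hs, ha⟩ b ⟨t, ht, hb⟩ r hra hrb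
    rcases hchain.total hs ht with h | h
    · exact (hc ht).2 a (h ha) b hb r hra hrb
    · exact (hc hs).2 a ha b (h hb) r hra hrb)
  have hAm := hA.prop
  -- `A` is predense
  have hpre : ∀ p, ∃ a ∈ A, ∃ r, r ≤ p ∧ r ≤ a := by
    intro p
    obtain ⟨q, hq, hqD⟩ := hD p
    by_contra hcon
    push Not at hcon
    have h1 : insert q A ∈ 𝒜 := by
      refine ⟨Set.insert_subset hqD hAm.1, ?_⟩
      rintro a (rfl | ha) b (rfl | hb) r hra hrb
      · rfl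
      · exact (hcon b hb r (hra.trans hq) hrb).elim
      · exact (hcon a ha r (hrb.trans hq) hra).elim
      · exact hAm.2 a ha b hb r hra hrb
    have h2 : q ∈ A := hA.le_of_ge h1 (Set.subset_insert _ _) (Set.mem_insert _ _)
    exact hcon q h2 q hq le_rfl
  -- `A` is small
  have hsmall : #A ≤ #I := by
    rw [hI]
    by_contra hcon
    rw [not_le] at hcon
    have h1 : #κ ≤ #A := by
      rw [hκ]
      exact Order.succ_le_of_lt hcon
    obtain ⟨g⟩ := h1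
    obtain ⟨ξ, η, hne, _, h2⟩ := Cond.amalg (cd := cd) (o := o)
      (by rw [hκ]; exact Order.lt_succ _) hΩ (fun ξ => (g ξ).1) (fun _ => o)
    obtain ⟨q, hq1, hq2, _⟩ := h2 o
    have h3 := hAm.2 _ (g ξ).2 _ (g η).2 q hq1 hq2
    exact hne (g.injective (Subtype.ext h3))
  obtain ⟨g⟩ := hsmall
  have hne : Nonempty A := by
    obtain ⟨a, ha, _⟩ := hpre (Cond.empty cd o)
    exact ⟨⟨a, ha⟩⟩
  refine ⟨fun i => (Function.invFun g i).1, fun i => hAm.1 (Function.invFun g i).2, fun p => ?_⟩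
  obtain ⟨a, ha, r, hr, hra⟩ := hpre p
  refine ⟨g ⟨a, ha⟩, r, hr, ?_⟩
  change r ≤ (Function.invFun g (g ⟨a, ha⟩)).1
  rw [Function.leftInverse_invFun g.injective]
  exact hra

end

end Pool.Agent.Lib.MP_df1441_gt
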