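import Pool.Agent.Lib.MP_df1441_gt.Z.Defs
import Pool.Agent.Lib.MP_df1441_gt.Z.Closure

/-!
# The poset
-/

set_option autoImplicit false

open Cardinal

namespace Pool.Agent.Lib.MP_df1441_gt

/-- pre-conditions: a countable partial function `δ` on pairs of elements of `κ`, and a countable
partial function `F` on pairs of a name and an element of `κ` -/
structure Pre (κ Ω Nm : Type) where
  δ : κ → κ → Option Ω
  F : Nm → κ → Option (Bool × Ω)
  hδ : {x : κ × κ | δ x.1 x.2 ≠ none}.Countable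
  hF : {x : Nm × κ | F x.1 x.2 ≠ none}.Countable

instance (κ Ω Nm : Type) : Preorder (Pre κ Ω Nm) where
  le q p := (∀ x y c, p.δ x y = some c → q.δ x y = some c) ∧
    ∀ B x v, p.F B x = some v → q.F B x = some v
  le_refl p := ⟨fun _ _ _ h => h, fun _ _ _ h => h⟩
  le_trans p q r h h' := ⟨fun x y c hc => h.1 x y c (h'.1 x y c hc),
    fun B x v hv => h.2 B x v (h'.2 B x v hv)⟩

theorem Pre.le_def {κ Ω Nm : Type} {q p : Pre κ Ω Nm} :
    q ≤ p ↔ (∀ x y c, p.δ x y = some c → q.δ x y = some c) ∧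
      ∀ B x v, p.F B x = some v → q.F B x = some v := Iff.rfl

section

variable {κ Ω Nm I : Type} [LinearOrder Ω]

/-- the conditions: `cd B x i` are the pre-conditions (with labels) which the name `B` provides
for `x` -/
structure Valid (cd : Nm → κ → I → Pre κ Ω Nm × Bool) (o : Ω) (p : Pre κ Ω Nm) : Prop where
  pos : ∀ B x b β, p.F B x = some (b, β) → o < β
  dec : ∀ B x b β, p.F B x = some (b, β) → ∃ i, (cd B x i).2 = b ∧ p ≤ (cd B x i).1
  sep : ∀ B x y b β b' β' c, p.F B x = some (b, β) → p.F B y = some (b', β') → b ≠ b' →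
    p.δ x y = some c → c < max β β'

/-- the poset -/
def Cond (cd : Nm → κ → I → Pre κ Ω Nm × Bool) (o : Ω) : Type := {p : Pre κ Ω Nm // Valid cd o p}

instance (cd : Nm → κ → I → Pre κ Ω Nm × Bool) (o : Ω) : Preorder (Cond cd o) :=
  inferInstanceAs (Preorder {p : Pre κ Ω Nm // Valid cd o p})

variable {cd : Nm → κ → I → Pre κ Ω Nm × Bool} {o : Ω}

/-- the empty condition -/
def Cond.empty (cd : Nm → κ → I → Pre κ Ω Nm × Bool) (o : Ω) : Cond cd o :=
  ⟨⟨fun _ _ => none, fun _ _ => none, by simp, by simp⟩,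
    ⟨fun _ _ _ _ h => by simp at h, fun _ _ _ _ h => by simp at h,
      fun _ _ _ _ _ _ _ _ h => by simp at h⟩⟩

theorem Cond.le_def {q p : Cond cd o} :
    q ≤ p ↔ (∀ x y c, p.1.δ x y = some c → q.1.δ x y = some c) ∧
      ∀ B x v, p.1.F B x = some v → q.1.F B x = some v := Iff.rfl

/-- define `δ` at a new pair -/
theorem Cond.ext_δ (p : Cond cd o) (x y : κ) (c : Ω) (h : p.1.δ x y = none)
    (hs : ∀ B b β b' β', p.1.F B x = some (b, β) → p.1.F B y = some (b', β') → b ≠ b' →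
      c < max β β') : ∃ q ≤ p, q.1.δ x y = some c := by
  classical
  have hd : ∀ x' y' c', (if x' = x ∧ y' = y then some c else p.1.δ x' y') = some c' →
      (x' = x ∧ y' = y ∧ c' = c) ∨ p.1.δ x' y' = some c' := by
    intro x' y' c' h'
    split_ifs at h' with h1
    · exact Or.inl ⟨h1.1, h1.2, (Option.some.inj h').symm⟩
    · exact Or.inr h'
  have hle : ∀ x' y' c', p.1.δ x' y' = some c' →
      (if x' = x ∧ y' = y then some c else p.1.δ x' y') = some c' := by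
    intro x' y' c' h'
    rw [if_neg, h']
    rintro ⟨rfl, rfl⟩
    rw [h] at h'
    cases h'
  let q : Pre κ Ω Nm := ⟨fun x' y' => if x' = x ∧ y' = y then some c else p.1.δ x' y', p.1.F, by
    refine (p.1.hδ.union (Set.countable_singleton (x, y))).mono ?_
    rintro ⟨x', y'⟩ h'
    by_cases h1 : x' = x ∧ y' = y
    · right
      rw [Set.mem_singleton_iff, h1.1, h1.2]
    · left
      simpa [h1] using h', p.1.hF⟩
  have hqp : q ≤ p.1 := ⟨hle, fun _ _ _ h => h⟩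
  refine ⟨⟨q, ⟨p.2.pos, fun B x' b β h' => ?_, ?_⟩⟩, hqp, ?_⟩
  · obtain ⟨i, hi, hi'⟩ := p.2.dec B x' b β h'
    exact ⟨i, hi, hqp.trans hi'⟩
  · intro B x' y' b β b' β' c' h1 h2 h3 h4
    rcases hd x' y' c' h4 with ⟨rfl, rfl, rfl⟩ | h5
    · exact hs B b β b' β' h1 h2 h3
    · exact p.2.sep B x' y' b β b' β' c' h1 h2 h3 h5
  · change (if x = x ∧ y = y then some c else p.1.δ x y) = some c
    rw [if_pos ⟨rfl, rfl⟩]

/-- `δ` can be made total -/
theorem Cond.total_δ (p : Cond cd o) (x y : κ) : ∃ q ≤ p, ∃ c, q.1.δ x y = some c := by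
  cases h : p.1.δ x y with
  | some c => exact ⟨p, le_rfl, c, h⟩
  | none =>
    obtain ⟨q, hq, hq'⟩ := p.ext_δ x y o h
      (fun B b β b' β' h1 _ _ => (p.2.pos B x b β h1).trans_le (le_max_left _ _))
    exact ⟨q, hq, o, hq'⟩

/-- define `F` at a new place -/
theorem Cond.ext_F (hb : ∀ S : Set Ω, S.Countable → ∃ b, ∀ s ∈ S, s < b) (p : Cond cd o) (B : Nm)
    (x : κ) (i : I) (hi : p.1 ≤ (cd B x i).1) (h : p.1.F B x = none) :
    ∃ q ≤ p, ∃ β, q.1.F B x = some ((cd B x i).2, β) := by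
  classical
  obtain ⟨β, hβ⟩ := hb ({o} ∪ ((fun z : κ × κ => (p.1.δ z.1 z.2).getD o) ''
    {z : κ × κ | p.1.δ z.1 z.2 ≠ none})) ((Set.countable_singleton o).union (p.1.hδ.image _))
  have hβo : o < β := hβ o (Or.inl rfl)
  have hβδ : ∀ x' y' c, p.1.δ x' y' = some c → c < β := by
    intro x' y' c hc
    refine hβ c (Or.inr ⟨(x', y'), ?_, ?_⟩)
    · change p.1.δ x' y' ≠ none
      rw [hc]
      exact Option.some_ne_none _
    · simp [hc]
  set b₀ := (cd B x i).2 with hb₀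
  have hd : ∀ B' x' v, (if B' = B ∧ x' = x then some (b₀, β) else p.1.F B' x') = some v →
      (B' = B ∧ x' = x ∧ v = (b₀, β)) ∨ p.1.F B' x' = some v := by
    intro B' x' v h'
    split_ifs at h' with h1
    · exact Or.inl ⟨h1.1, h1.2, (Option.some.inj h').symm⟩
    · exact Or.inr h'
  have hle : ∀ B' x' v, p.1.F B' x' = some v →
      (if B' = B ∧ x' = x then some (b₀, β) else p.1.F B' x') = some v := by
    intro B' x' v h'
    rw [if_neg, h']
    rintro ⟨rfl, rfl⟩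
    rw [h] at h'
    cases h'
  let q : Pre κ Ω Nm := ⟨p.1.δ, fun B' x' => if B' = B ∧ x' = x then some (b₀, β) else p.1.F B' x',
    p.1.hδ, by
    refine (p.1.hF.union (Set.countable_singleton (B, x))).mono ?_
    rintro ⟨B', x'⟩ h'
    by_cases h1 : B' = B ∧ x' = x
    · right
      rw [Set.mem_singleton_iff, h1.1, h1.2]
    · left
      simpa [h1] using h'⟩
  have hqp : q ≤ p.1 := ⟨fun _ _ _ h => h, hle⟩
  refine ⟨⟨q, ⟨?_, ?_, ?_⟩⟩, hqp, β, ?_⟩
  · intro B' x' b' β' h'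
    rcases hd B' x' _ h' with ⟨rfl, rfl, h1⟩ | h1
    · rw [(Prod.mk.inj h1).2]
      exact hβo
    · exact p.2.pos B' x' b' β' h1
  · intro B' x' b' β' h'
    rcases hd B' x' _ h' with ⟨rfl, rfl, h1⟩ | h1
    · exact ⟨i, (Prod.mk.inj h1).1.symm, hqp.trans hi⟩
    · obtain ⟨j, hj, hj'⟩ := p.2.dec B' x' b' β' h1
      exact ⟨j, hj, hqp.trans hj'⟩
  · intro B' x' y' b β₁ b' β₂ c h1 h2 h3 h4
    rcases hd B' x' _ h1 with ⟨rfl, rfl, h5⟩ | h5
    · rw [(Prod.mk.inj h5).2]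
      exact (hβδ _ _ _ h4).trans_le (le_max_left _ _)
    · rcases hd B' y' _ h2 with ⟨rfl, rfl, h6⟩ | h6
      · rw [(Prod.mk.inj h6).2]
        exact (hβδ _ _ _ h4).trans_le (le_max_right _ _)
      · exact p.2.sep B' x' y' b β₁ b' β₂ c h5 h6 h3 h4
  · change (if B = B ∧ x = x then some (b₀, β) else p.1.F B x) = some (b₀, β)
    rw [if_pos ⟨rfl, rfl⟩]

/-- the value of a family of partial functions -/
noncomputable def uo {V : Type} (f : ℕ → Option V) : Option V := by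
  classical
  exact if h : ∃ v i, f i = some v then some h.choose else none

theorem uo_eq {V : Type} {f : ℕ → Option V} (hf : ∀ i j v w, f i = some v → f j = some w → v = w)
    (v : V) : uo f = some v ↔ ∃ i, f i = some v := by
  classical
  unfold uo
  constructor
  · intro h
    split_ifs at h with h1
    obtain ⟨i, hi⟩ := h1.choose_spec
    cases h
    exact ⟨i, hi⟩
  · rintro ⟨i, hi⟩
    have h1 : ∃ v i, f i = some v := ⟨v, i, hi⟩
    rw [dif_pos h1]
    obtain ⟨j, hj⟩ := h1.choose_spec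
    rw [hf j i _ _ hj hi]

theorem uo_ne {V : Type} {f : ℕ → Option V} (h : uo f ≠ none) : ∃ i, f i ≠ none := by
  classical
  by_contra hcon
  push Not at hcon
  apply h
  unfold uo
  rw [dif_neg]
  rintro ⟨v, i, hi⟩
  rw [hcon i] at hi
  cases hi

/-- the poset is countably closed -/
theorem Cond.exists_lower (p : ℕ → Cond cd o) (hp : ∀ n, p (n + 1) ≤ p n) : ∃ q, ∀ n, q ≤ p n := by
  classical
  have hmono : ∀ m n, m ≤ n → p n ≤ p m := by
    intro m n hmn
    induction n, hmn using Nat.le_induction with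
    | base => exact le_rfl
    | succ n _ ih => exact (hp n).trans ih
  have cδ : ∀ x y, ∀ i j v w, (p i).1.δ x y = some v → (p j).1.δ x y = some w → v = w := by
    intro x y i j v w h1 h2
    rcases le_total i j with hij | hij
    · have := (hmono i j hij).1 x y v h1
      rw [h2] at this
      exact (Option.some.inj this).symm
    · have := (hmono j i hij).1 x y w h2
      rw [h1] at this
      exact Option.some.inj this
  have cF : ∀ B x, ∀ i j v w, (p i).1.F B x = some v → (p j).1.F B x = some w → v = w := by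
    intro B x i j v w h1 h2
    rcases le_total i j with hij | hij
    · have := (hmono i j hij).2 B x v h1
      rw [h2] at this
      exact (Option.some.inj this).symm
    · have := (hmono j i hij).2 B x w h2
      rw [h1] at this
      exact Option.some.inj this
  let q : Pre κ Ω Nm := ⟨fun x y => uo fun n => (p n).1.δ x y, fun B x => uo fun n => (p n).1.F B x, by
    refine (Set.countable_iUnion fun n => (p n).1.hδ).mono ?_
    rintro ⟨x, y⟩ h
    obtain ⟨n, hn⟩ := uo_ne h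
    exact Set.mem_iUnion.2 ⟨n, hn⟩, by
    refine (Set.countable_iUnion fun n => (p n).1.hF).mono ?_
    rintro ⟨B, x⟩ h
    obtain ⟨n, hn⟩ := uo_ne h
    exact Set.mem_iUnion.2 ⟨n, hn⟩⟩
  have hδ : ∀ x y c, q.δ x y = some c ↔ ∃ n, (p n).1.δ x y = some c := fun x y c =>
    uo_eq (cδ x y) c
  have hF : ∀ B x v, q.F B x = some v ↔ ∃ n, (p n).1.F B x = some v := fun B x v =>
    uo_eq (cF B x) v
  have hq : ∀ n, q ≤ (p n).1 := fun n =>
    ⟨fun x y c h => (hδ x y c).2 ⟨n, h⟩, fun B x v h => (hF B x v).2 ⟨n, h⟩⟩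
  refine ⟨⟨q, ⟨?_, ?_, ?_⟩⟩, hq⟩
  · intro B x b β h
    obtain ⟨n, hn⟩ := (hF _ _ _).1 h
    exact (p n).2.pos B x b β hn
  · intro B x b β h
    obtain ⟨n, hn⟩ := (hF _ _ _).1 h
    obtain ⟨i, hi, hi'⟩ := (p n).2.dec B x b β hn
    exact ⟨i, hi, (hq n).trans hi'⟩
  · intro B x y b β b' β' c h1 h2 h3 h4
    obtain ⟨n1, h1⟩ := (hF _ _ _).1 h1
    obtain ⟨n2, h2⟩ := (hF _ _ _).1 h2
    obtain ⟨n3, h4⟩ := (hδ _ _ _).1 h4
    have k1 : n1 ≤ max n1 (max n2 n3) := le_max_left _ _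
    have k2 : n2 ≤ max n1 (max n2 n3) := (le_max_left _ _).trans (le_max_right _ _)
    have k3 : n3 ≤ max n1 (max n2 n3) := (le_max_right _ _).trans (le_max_right _ _)
    exact (p (max n1 (max n2 n3))).2.sep B x y b β b' β' c ((hmono _ _ k1).2 _ _ _ h1)
      ((hmono _ _ k2).2 _ _ _ h2) h3 ((hmono _ _ k3).1 _ _ _ h4)

/-- an enumeration of the support of a condition, which starts with `ξ` -/
theorem Cond.exists_supp (p : Cond cd o) (ξ : κ) : ∃ h : ℕ → κ ⊕ Nm, h 0 = Sum.inl ξ ∧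
    (∀ x y, p.1.δ x y ≠ none → (∃ n, h n = Sum.inl x) ∧ ∃ n, h n = Sum.inl y) ∧
    ∀ B x, p.1.F B x ≠ none → (∃ n, h n = Sum.inr B) ∧ ∃ n, h n = Sum.inl x := by
  have hc : ({Sum.inl ξ} ∪ (((fun z : κ × κ => (Sum.inl z.1 : κ ⊕ Nm)) ''
      {z | p.1.δ z.1 z.2 ≠ none}) ∪ ((fun z : κ × κ => (Sum.inl z.2 : κ ⊕ Nm)) ''
      {z | p.1.δ z.1 z.2 ≠ none})) ∪ (((fun z : Nm × κ => (Sum.inr z.1 : κ ⊕ Nm)) ''
      {z | p.1.F z.1 z.2 ≠ none}) ∪ ((fun z : Nm × κ => (Sum.inl z.2 : κ ⊕ Nm)) ''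
      {z | p.1.F z.1 z.2 ≠ none})) : Set (κ ⊕ Nm)).Countable :=
    ((Set.countable_singleton _).union ((p.1.hδ.image _).union (p.1.hδ.image _))).union
      ((p.1.hF.image _).union (p.1.hF.image _))
  obtain ⟨f, hf⟩ := hc.exists_eq_range ⟨Sum.inl ξ, Or.inl (Or.inl rfl)⟩
  have hr : ∀ z, z ∈ ({Sum.inl ξ} ∪ (((fun z : κ × κ => (Sum.inl z.1 : κ ⊕ Nm)) ''
      {z | p.1.δ z.1 z.2 ≠ none}) ∪ ((fun z : κ × κ => (Sum.inl z.2 : κ ⊕ Nm)) ''
      {z | p.1.δ z.1 z.2 ≠ none})) ∪ (((fun z : Nm × κ => (Sum.inr z.1 : κ ⊕ Nm)) ''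
      {z | p.1.F z.1 z.2 ≠ none}) ∪ ((fun z : Nm × κ => (Sum.inl z.2 : κ ⊕ Nm)) ''
      {z | p.1.F z.1 z.2 ≠ none})) : Set (κ ⊕ Nm)) → ∃ n, f n = z := by
    intro z hz
    rw [hf] at hz
    exact hz
  let h : ℕ → κ ⊕ Nm := fun n => Nat.casesOn n (Sum.inl ξ) f
  have hh : ∀ z, (∃ n, f n = z) → ∃ n, h n = z := by
    rintro z ⟨n, hn⟩
    exact ⟨n + 1, hn⟩
  refine ⟨h, rfl, ?_, ?_⟩
  · intro x y hxy
    exact ⟨hh _ (hr _ (Or.inl (Or.inr (Or.inl ⟨(x, y), hxy, rfl⟩)))),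
      hh _ (hr _ (Or.inl (Or.inr (Or.inr ⟨(x, y), hxy, rfl⟩))))⟩
  · intro B x hBx
    exact ⟨hh _ (hr _ (Or.inr (Or.inl ⟨(B, x), hBx, rfl⟩))),
      hh _ (hr _ (Or.inr (Or.inr ⟨(B, x), hBx, rfl⟩)))⟩

end

end Pool.Agent.Lib.MP_df1441_gt
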