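import Pool.Agent.Lib.MP_df1441_gt.Z.Defs

/-!
# The space
-/

set_option autoImplicit false

namespace Pool.Agent.Lib.MP_df1441_gt

/-- two binary sequences agree below `n` -/
def Agree (n : ℕ) (a b : ℕ → Bool) : Prop := ∀ i < n, a i = b i

theorem Agree.refl (n : ℕ) (a : ℕ → Bool) : Agree n a a := fun _ _ => rfl

theorem Agree.symm {n : ℕ} {a b : ℕ → Bool} (h : Agree n a b) : Agree n b a :=
  fun i hi => (h i hi).symm

theorem Agree.trans {n : ℕ} {a b c : ℕ → Bool} (h : Agree n a b) (h' : Agree n b c) :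
    Agree n a c := fun i hi => (h i hi).trans (h' i hi)

theorem Agree.mono {m n : ℕ} {a b : ℕ → Bool} (h : Agree n a b) (hmn : m ≤ n) : Agree m a b :=
  fun i hi => h i (hi.trans_le hmn)

theorem exists_not_agree {a b : ℕ → Bool} (h : a ≠ b) : ∃ n, ¬ Agree n a b := by
  by_contra hcon
  push Not at hcon
  exact h (funext fun i => hcon (i + 1) i (Nat.lt_succ_self i))

/-- the eventually zero sequences -/
def Q0 : Type := {q : ℕ → Bool // ∃ n, ∀ m, n ≤ m → q m = false}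

instance : Countable Q0 := by
  let F : Q0 → Σ n : ℕ, (Fin n → Bool) := fun q => ⟨q.2.choose, fun i => q.1 i⟩
  have hF : Function.Injective F := by
    intro q q' hqq
    have h1 : q.2.choose = q'.2.choose := congrArg Sigma.fst hqq
    apply Subtype.ext
    funext i
    by_cases hi : i < q.2.choose
    · have hi' : i < q'.2.choose := h1 ▸ hi
      have key : ∀ (s t : Σ n : ℕ, (Fin n → Bool)), s = t → ∀ (hs : i < s.1) (ht : i < t.1),
          s.2 ⟨i, hs⟩ = t.2 ⟨i, ht⟩ := by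
        rintro s t rfl hs ht
        rfl
      exact key (F q) (F q') hqq hi hi'
    · have hi' : ¬ i < q'.2.choose := h1 ▸ hi
      rw [q.2.choose_spec i (not_lt.1 hi), q'.2.choose_spec i (not_lt.1 hi')]
  exact hF.countable

theorem exists_Q0 (n : ℕ) (z : ℕ → Bool) : ∃ q : Q0, Agree n q.1 z :=
  ⟨⟨fun i => if i < n then z i else false, n, fun m hm => by simp [not_lt.2 hm]⟩,
    fun i hi => by simp [hi]⟩

section

variable {κ Ω : Type}

/-- the set of points: pairs `(x, q)` and ordered pairs of different elements of `κ` -/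
def Pt (_Δ : κ → κ → Ω) (_r : Ω → ℕ → Bool) : Type := (κ × Q0) ⊕ {d : κ × κ // d.1 ≠ d.2}

variable (Δ : κ → κ → Ω) (r : Ω → ℕ → Bool)

/-- the point `(x, q)` -/
def pl (x : κ) (q : Q0) : Pt Δ r := Sum.inl (x, q)

/-- the isolated point `d` -/
def pr (d : {d : κ × κ // d.1 ≠ d.2}) : Pt Δ r := Sum.inr d

variable {Δ r}

theorem pl_inj {x x' : κ} {q q' : Q0} (h : pl Δ r x q = pl Δ r x' q') : x = x' ∧ q = q' := by
  have := Sum.inl.inj h
  exact ⟨congrArg Prod.fst this, congrArg Prod.snd this⟩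

theorem pr_inj {d d' : {d : κ × κ // d.1 ≠ d.2}} (h : pr Δ r d = pr Δ r d') : d = d' :=
  Sum.inr.inj h

theorem pl_ne_pr {x : κ} {q : Q0} {d : {d : κ × κ // d.1 ≠ d.2}} : pl Δ r x q ≠ pr Δ r d :=
  fun h => by cases h

theorem pt_cases (p : Pt Δ r) : (∃ x q, p = pl Δ r x q) ∨ ∃ d, p = pr Δ r d := by
  rcases p with ⟨x, q⟩ | d
  · exact Or.inl ⟨x, q, rfl⟩
  · exact Or.inr ⟨d, rfl⟩

/-- the real attached to the pair `d` -/
def rr (Δ : κ → κ → Ω) (r : Ω → ℕ → Bool) (d : {d : κ × κ // d.1 ≠ d.2}) : ℕ → Bool :=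
  r (Δ d.1.1 d.1.2)

/-- `x` is a member of the pair `d` -/
def Mm (x : κ) (d : {d : κ × κ // d.1 ≠ d.2}) : Prop := x = d.1.1 ∨ x = d.1.2

variable (Δ r) in
/-- the basic neighbourhood of `(x, q)` -/
def N (x : κ) (q : Q0) (n : ℕ) : Set (Pt Δ r) :=
  {p | (∃ q', p = pl Δ r x q' ∧ Agree n q'.1 q.1) ∨
    ∃ d, p = pr Δ r d ∧ Mm x d ∧ Agree n (rr Δ r d) q.1}

theorem pl_mem_N {x x' : κ} {q q' : Q0} {n : ℕ} :
    pl Δ r x' q' ∈ N Δ r x q n ↔ x' = x ∧ Agree n q'.1 q.1 := by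
  constructor
  · rintro (⟨q'', h, ha⟩ | ⟨d, h, _⟩)
    · obtain ⟨rfl, rfl⟩ := pl_inj h
      exact ⟨rfl, ha⟩
    · exact (pl_ne_pr h).elim
  · rintro ⟨rfl, ha⟩
    exact Or.inl ⟨q', rfl, ha⟩

theorem pr_mem_N {x : κ} {q : Q0} {n : ℕ} {d : {d : κ × κ // d.1 ≠ d.2}} :
    pr Δ r d ∈ N Δ r x q n ↔ Mm x d ∧ Agree n (rr Δ r d) q.1 := by
  constructor
  · rintro (⟨q'', h, ha⟩ | ⟨d', h, ha⟩)
    · exact (pl_ne_pr h.symm).elim
    · rw [pr_inj h]
      exact ha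
  · intro h
    exact Or.inr ⟨d, rfl, h⟩

theorem N_anti {x : κ} {q : Q0} {m n : ℕ} (hmn : m ≤ n) : N Δ r x q n ⊆ N Δ r x q m := by
  rintro p (⟨q', h, ha⟩ | ⟨d, h, hd, ha⟩)
  · exact Or.inl ⟨q', h, ha.mono hmn⟩
  · exact Or.inr ⟨d, h, hd, ha.mono hmn⟩

theorem N_eq {x : κ} {q q' : Q0} {n : ℕ} (h : Agree n q.1 q'.1) : N Δ r x q n = N Δ r x q' n := by
  ext p
  constructor
  · rintro (⟨q', h', ha⟩ | ⟨d, h', hd, ha⟩)
    · exact Or.inl ⟨q', h', ha.trans h⟩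
    · exact Or.inr ⟨d, h', hd, ha.trans h⟩
  · rintro (⟨q', h', ha⟩ | ⟨d, h', hd, ha⟩)
    · exact Or.inl ⟨q', h', ha.trans h.symm⟩
    · exact Or.inr ⟨d, h', hd, ha.trans h.symm⟩

instance : TopologicalSpace (Pt Δ r) where
  IsOpen U := ∀ x q, pl Δ r x q ∈ U → ∃ n, N Δ r x q n ⊆ U
  isOpen_univ := fun _ _ _ => ⟨0, Set.subset_univ _⟩
  isOpen_inter := by
    intro U V hU hV x q h
    obtain ⟨m, hm⟩ := hU x q h.1
    obtain ⟨n, hn⟩ := hV x q h.2
    exact ⟨max m n, Set.subset_inter ((N_anti (le_max_left _ _)).trans hm)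
      ((N_anti (le_max_right _ _)).trans hn)⟩
  isOpen_sUnion := by
    intro S hS x q h
    obtain ⟨U, hU, hx⟩ := h
    obtain ⟨n, hn⟩ := hS U hU x q hx
    exact ⟨n, hn.trans (Set.subset_sUnion_of_mem hU)⟩

theorem isOpen_pt {U : Set (Pt Δ r)} :
    IsOpen U ↔ ∀ x q, pl Δ r x q ∈ U → ∃ n, N Δ r x q n ⊆ U := Iff.rfl

theorem isOpen_N (x : κ) (q : Q0) (n : ℕ) : IsOpen (N Δ r x q n) := by
  rw [isOpen_pt]
  intro x' q' h
  obtain ⟨rfl, ha⟩ := pl_mem_N.1 h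
  exact ⟨n, by rw [N_eq ha]⟩

theorem mem_N_self (x : κ) (q : Q0) (n : ℕ) : pl Δ r x q ∈ N Δ r x q n :=
  pl_mem_N.2 ⟨rfl, Agree.refl _ _⟩

theorem isOpen_pr (d : {d : κ × κ // d.1 ≠ d.2}) : IsOpen {pr Δ r d} := by
  rw [isOpen_pt]
  intro x q h
  exact (pl_ne_pr h).elim

theorem nhds_pl (x : κ) (q : Q0) :
    (nhds (pl Δ r x q)).HasBasis (fun _ : ℕ => True) (N Δ r x q) := by
  constructor
  intro t
  rw [mem_nhds_iff]
  constructor
  · rintro ⟨U, hU, hUo, hx⟩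
    obtain ⟨n, hn⟩ := isOpen_pt.1 hUo x q hx
    exact ⟨n, trivial, hn.trans hU⟩
  · rintro ⟨n, _, hn⟩
    exact ⟨_, hn, isOpen_N x q n, mem_N_self x q n⟩

theorem nhds_pr (d : {d : κ × κ // d.1 ≠ d.2}) : nhds (pr Δ r d) = pure (pr Δ r d) :=
  (isOpen_singleton_iff_nhds_eq_pure _).1 (isOpen_pr d)

theorem firstCountable : FirstCountableTopology (Pt Δ r) := by
  constructor
  intro p
  rcases pt_cases p with ⟨x, q, rfl⟩ | ⟨d, rfl⟩
  · exact (nhds_pl x q).isCountablyGenerated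
  · rw [nhds_pr]
    infer_instance

theorem isClosed_N (hr : ∀ ν (q : Q0), r ν ≠ q.1) (x : κ) (q : Q0) (n : ℕ) :
    IsClosed (N Δ r x q n) := by
  rw [← isOpen_compl_iff, isOpen_pt]
  intro x' q' h
  by_cases hx : x' = x
  · subst hx
    refine ⟨n, ?_⟩
    have hna : ¬ Agree n q'.1 q.1 := fun ha => h (pl_mem_N.2 ⟨rfl, ha⟩)
    rintro p (⟨q'', rfl, ha⟩ | ⟨d, rfl, hd, ha⟩) hp
    · exact hna (ha.symm.trans (pl_mem_N.1 hp).2)
    · exact hna (ha.symm.trans (pr_mem_N.1 hp).2)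
  · obtain ⟨n1, h1⟩ := exists_not_agree (hr (Δ x x') q')
    obtain ⟨n2, h2⟩ := exists_not_agree (hr (Δ x' x) q')
    refine ⟨max n1 n2, ?_⟩
    rintro p (⟨q'', rfl, ha⟩ | ⟨d, rfl, hd, ha⟩) hp
    · exact hx (pl_mem_N.1 hp).1
    · have hd' := (pr_mem_N.1 hp).1
      rcases hd with hd | hd <;> rcases hd' with hd' | hd'
      · exact hx (hd.trans hd'.symm)
      · refine h2 (Agree.mono ?_ (le_max_right n1 n2))
        have : rr Δ r d = r (Δ x' x) := by rw [rr, ← hd, ← hd']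
        rwa [this] at ha
      · refine h1 (Agree.mono ?_ (le_max_left n1 n2))
        have : rr Δ r d = r (Δ x x') := by rw [rr, ← hd, ← hd']
        rwa [this] at ha
      · exact hx (hd.trans hd'.symm)

theorem isClosed_pr (hr : ∀ ν (q : Q0), r ν ≠ q.1) (d : {d : κ × κ // d.1 ≠ d.2}) :
    IsClosed {pr Δ r d} := by
  rw [← isOpen_compl_iff, isOpen_pt]
  intro x q _
  obtain ⟨n, hn⟩ := exists_not_agree (hr (Δ d.1.1 d.1.2) q)
  refine ⟨n, ?_⟩
  rintro p hp hpd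
  rw [Set.mem_singleton_iff] at hpd
  subst hpd
  exact hn (pr_mem_N.1 hp).2

theorem t3 (hr : ∀ ν (q : Q0), r ν ≠ q.1) : T3Space (Pt Δ r) := by
  have hreg : RegularSpace (Pt Δ r) := by
    refine RegularSpace.of_exists_mem_nhds_isClosed_subset ?_
    intro p s hs
    rcases pt_cases p with ⟨x, q, rfl⟩ | ⟨d, rfl⟩
    · obtain ⟨n, _, hn⟩ := (nhds_pl x q).mem_iff.1 hs
      exact ⟨N Δ r x q n, (isOpen_N x q n).mem_nhds (mem_N_self x q n), isClosed_N hr x q n, hn⟩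
    · refine ⟨{pr Δ r d}, (isOpen_pr d).mem_nhds rfl, isClosed_pr hr d, ?_⟩
      rw [Set.singleton_subset_iff]
      exact mem_of_mem_nhds hs
  have ht1 : T1Space (Pt Δ r) := by
    constructor
    intro p
    rcases pt_cases p with ⟨x, q, rfl⟩ | ⟨d, rfl⟩
    · have : {pl Δ r x q} = ⋂ n, N Δ r x q n := by
        ext p
        rw [Set.mem_singleton_iff, Set.mem_iInter]
        constructor
        · rintro rfl n
          exact mem_N_self x q n
        · intro h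
          rcases pt_cases p with ⟨x', q', rfl⟩ | ⟨d, rfl⟩
          · have h1 := (pl_mem_N.1 (h 0)).1
            subst h1
            have h2 : q'.1 = q.1 := by
              by_contra hne
              obtain ⟨n, hn⟩ := exists_not_agree hne
              exact hn (pl_mem_N.1 (h n)).2
            rw [Subtype.ext h2]
          · exfalso
            obtain ⟨n, hn⟩ := exists_not_agree (hr (Δ d.1.1 d.1.2) q)
            exact hn (pr_mem_N.1 (h n)).2
      rw [this]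
      exact isClosed_iInter fun n => isClosed_N hr x q n
    · exact isClosed_pr hr d
  infer_instance

/-- metacompactness -/
theorem metacompact : Metacompact (Pt Δ r) := by
  classical
  intro 𝒰 hU hcov
  have hgood : ∀ (x : κ) (q : Q0), ∃ n, ∃ U ∈ 𝒰, N Δ r x q n ⊆ U := by
    intro x q
    have h1 : pl Δ r x q ∈ ⋃₀ 𝒰 := by rw [hcov]; trivial
    obtain ⟨U, hU', hx⟩ := h1
    obtain ⟨n, hn⟩ := isOpen_pt.1 (hU U hU') x q hx
    exact ⟨n, U, hU', hn⟩
  let ν : κ → Q0 → ℕ := fun x q => Nat.find (hgood x q)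
  have hν : ∀ x q, ∃ U ∈ 𝒰, N Δ r x q (ν x q) ⊆ U := fun x q => Nat.find_spec (hgood x q)
  have hνle : ∀ x q n, (∃ U ∈ 𝒰, N Δ r x q n ⊆ U) → ν x q ≤ n :=
    fun x q n h => Nat.find_min' (hgood x q) h
  have key : ∀ (x : κ) (q q' : Q0) (z : ℕ → Bool), Agree (ν x q) z q.1 → Agree (ν x q') z q'.1 →
      N Δ r x q (ν x q) = N Δ r x q' (ν x q') := by
    have half : ∀ (x : κ) (q q' : Q0) (z : ℕ → Bool), ν x q ≤ ν x q' → Agree (ν x q) z q.1 →
        Agree (ν x q') z q'.1 → N Δ r x q (ν x q) = N Δ r x q' (ν x q') := by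
      intro x q q' z hle h1 h2
      have h3 : Agree (ν x q) q.1 q'.1 := h1.symm.trans (h2.mono hle)
      have h4 : ν x q' ≤ ν x q := by
        apply hνle
        rw [← N_eq h3]
        exact hν x q
      have h5 : ν x q = ν x q' := le_antisymm hle h4
      rw [N_eq h3, h5]
    intro x q q' z h1 h2
    rcases le_total (ν x q) (ν x q') with h | h
    · exact half x q q' z h h1 h2
    · exact (half x q' q z h h2 h1).symm
  refine ⟨{V | ∃ x q, V = N Δ r x q (ν x q)} ∪ {V | ∃ d, V = {pr Δ r d}}, ?_, ?_, ?_⟩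
  · rintro V (⟨x, q, rfl⟩ | ⟨d, rfl⟩)
    · exact ⟨isOpen_N _ _ _, hν x q⟩
    · refine ⟨isOpen_pr d, ?_⟩
      have h1 : pr Δ r d ∈ ⋃₀ 𝒰 := by rw [hcov]; trivial
      obtain ⟨U, hU', hx⟩ := h1
      exact ⟨U, hU', Set.singleton_subset_iff.2 hx⟩
  · rw [Set.eq_univ_iff_forall]
    intro p
    rcases pt_cases p with ⟨x, q, rfl⟩ | ⟨d, rfl⟩
    · exact ⟨_, Or.inl ⟨x, q, rfl⟩, mem_N_self _ _ _⟩
    · exact ⟨_, Or.inr ⟨d, rfl⟩, rfl⟩
  · intro p
    rcases pt_cases p with ⟨x, q, rfl⟩ | ⟨d, rfl⟩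
    · refine (Set.finite_singleton (N Δ r x q (ν x q))).subset ?_
      rintro V ⟨⟨x', q', rfl⟩ | ⟨d, rfl⟩, hV⟩
      · obtain ⟨rfl, ha⟩ := pl_mem_N.1 hV
        exact key x q' q q.1 ha (Agree.refl _ _)
      · exact (pl_ne_pr hV).elim
    · -- the members which contain `d`
      have hfin : ∀ x : κ, {V : Set (Pt Δ r) | ∃ q, V = N Δ r x q (ν x q) ∧ pr Δ r d ∈ V}.Finite := by
        intro x
        refine Set.Subsingleton.finite ?_
        rintro V ⟨q, rfl, h⟩ V' ⟨q', rfl, h'⟩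
        exact key x q q' (rr Δ r d) (pr_mem_N.1 h).2 (pr_mem_N.1 h').2
      refine (((hfin d.1.1).union (hfin d.1.2)).union
        (Set.finite_singleton ({pr Δ r d} : Set (Pt Δ r)))).subset ?_
      rintro V ⟨⟨x, q, rfl⟩ | ⟨d', rfl⟩, hV⟩
      · rcases (pr_mem_N.1 hV).1 with rfl | rfl
        · exact Or.inl (Or.inl ⟨q, rfl, hV⟩)
        · exact Or.inl (Or.inr ⟨q, rfl, hV⟩)
      · right
        rw [Set.mem_singleton_iff] at hV ⊢
        rw [hV]

end

end Pool.Agent.Lib.MP_df1441_gt
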