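import Pool.Agent.Lib.MP_df1441_gt.Z.Space

/-!
# The space is subnormal and not subparacompact
-/

set_option autoImplicit false

namespace Pool.Agent.Lib.MP_df1441_gt

/-- a cylinder -/
def Cyl (n : ℕ) (q : ℕ → Bool) : Set (ℕ → Bool) := {z | Agree n z q}

section

variable {κ Ω : Type} [LinearOrder Ω] {Δ : κ → κ → Ω} {r : Ω → ℕ → Bool}

/-- unions of cylinders -/
def CylOpen (O : Set (ℕ → Bool)) : Prop := ∀ z ∈ O, ∃ n, ∀ z', Agree n z' z → z' ∈ O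

/-- dense sets -/
def CylDense (O : Set (ℕ → Bool)) : Prop := ∀ (n : ℕ) (z : ℕ → Bool), ∃ z' ∈ O, Agree n z' z

/-- the space is not subparacompact -/
theorem not_subparacompact
    (hb : ∀ S : Set Ω, S.Countable → ∃ b, ∀ s ∈ S, s ≤ b)
    (hL : ∀ O : Set (ℕ → Bool), CylOpen O → CylDense O → {ν | r ν ∉ O}.Countable)
    (hQ : ¬ ∃ β : κ → Ω, ∀ x y, x ≠ y → Δ x y ≤ max (β x) (β y)) :
    ¬ Subparacompact (Pt Δ r) := by
  classical
  intro hsub
  let 𝒰 : Set (Set (Pt Δ r)) := {U | ∃ x : κ, U = {p | (∃ q, p = pl Δ r x q) ∨ ∃ d, p = pr Δ r d}}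
  have h𝒰o : ∀ U ∈ 𝒰, IsOpen U := by
    rintro U ⟨x, rfl⟩
    rw [isOpen_pt]
    rintro x' q h
    rcases h with ⟨q', h⟩ | ⟨d, h⟩
    · obtain ⟨rfl, rfl⟩ := pl_inj h
      refine ⟨0, ?_⟩
      rintro p (⟨q'', h, ha⟩ | ⟨d, h, hd, ha⟩)
      · exact Or.inl ⟨q'', h⟩
      · exact Or.inr ⟨d, h⟩
    · exact (pl_ne_pr h).elim
  have h𝒰c : ⋃₀ 𝒰 = Set.univ := by
    rw [Set.eq_univ_iff_forall]
    intro p
    rcases pt_cases p with ⟨x, q, rfl⟩ | ⟨d, rfl⟩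
    · exact ⟨_, ⟨x, rfl⟩, Or.inl ⟨q, rfl⟩⟩
    · exact ⟨_, ⟨d.1.1, rfl⟩, Or.inr ⟨d, rfl⟩⟩
  obtain ⟨𝒱, h1, h2, h3⟩ := hsub 𝒰 h𝒰o h𝒰c
  -- `Ms V x`: the set `V` meets the fibre of `x`
  let Ms : Set (Pt Δ r) → κ → Prop := fun V x => ∃ q, pl Δ r x q ∈ V
  have hm : ∀ (x : κ) (n : ℕ) (q : Q0), ∃ m : ℕ, ∀ V ∈ 𝒱 n, ¬ Ms V x → N Δ r x q m ∩ V = ∅ := by
    intro x n q
    obtain ⟨W, hW, hWs⟩ := h2 n (pl Δ r x q)
    by_cases hex : ∃ V ∈ 𝒱 n, (W ∩ V).Nonempty ∧ ¬ Ms V x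
    · obtain ⟨V, hV, hWV, hVx⟩ := hex
      have hW' : W ∩ Vᶜ ∈ nhds (pl Δ r x q) :=
        Filter.inter_mem hW ((h1 n V hV).1.isOpen_compl.mem_nhds fun h => hVx ⟨q, h⟩)
      obtain ⟨m, _, hm⟩ := (nhds_pl x q).mem_iff.1 hW'
      refine ⟨m, fun V' hV' _ => ?_⟩
      rw [Set.eq_empty_iff_forall_notMem]
      rintro p ⟨hp, hp'⟩
      have hpW := hm hp
      have : V' = V := hWs ⟨hV', p, hpW.1, hp'⟩ ⟨hV, hWV⟩
      subst this
      exact hpW.2 hp'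
    · push Not at hex
      obtain ⟨m, _, hm⟩ := (nhds_pl x q).mem_iff.1 hW
      refine ⟨m, fun V' hV' hVx => ?_⟩
      rw [Set.eq_empty_iff_forall_notMem]
      rintro p ⟨hp, hp'⟩
      exact hVx (hex V' hV' ⟨p, hm hp, hp'⟩)
  choose m hm using hm
  let O : κ → ℕ → Set (ℕ → Bool) := fun x n => {z | ∃ q : Q0, Agree (m x n q) z q.1}
  have hO : ∀ x n, {ν | r ν ∉ O x n}.Countable := by
    intro x n
    apply hL
    · rintro z ⟨q, hq⟩
      exact ⟨m x n q, fun z' hz' => ⟨q, hz'.trans hq⟩⟩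
    · intro k z
      obtain ⟨q, hq⟩ := exists_Q0 k z
      exact ⟨q.1, ⟨q, Agree.refl _ _⟩, hq⟩
  have hβ : ∀ x, ∃ b, ∀ ν, b < ν → ∀ n, r ν ∈ O x n := by
    intro x
    obtain ⟨b, hb⟩ := hb (⋃ n, {ν | r ν ∉ O x n}) (Set.countable_iUnion (hO x))
    refine ⟨b, fun ν hν n => ?_⟩
    by_contra hcon
    exact absurd (hb ν (Set.mem_iUnion.2 ⟨n, hcon⟩)) (not_le.2 hν)
  choose β hβ using hβ
  refine hQ ⟨β, fun x y hxy => ?_⟩
  by_contra hcon
  rw [not_le, max_lt_iff] at hcon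
  obtain ⟨n, V, hV, hd⟩ := h3 (pr Δ r ⟨(x, y), hxy⟩)
  have claim : ∀ z, Mm z ⟨(x, y), hxy⟩ → β z < Δ x y → Ms V z := by
    intro z hz hlt
    by_contra hMs
    obtain ⟨q, hq⟩ := hβ z (Δ x y) hlt n
    have h4 := hm z n q V hV hMs
    rw [Set.eq_empty_iff_forall_notMem] at h4
    exact h4 _ ⟨pr_mem_N.2 ⟨hz, hq⟩, hd⟩
  obtain ⟨q, hq⟩ := claim x (Or.inl rfl) hcon.1
  obtain ⟨q', hq'⟩ := claim y (Or.inr rfl) hcon.2
  obtain ⟨U, ⟨z, rfl⟩, hVU⟩ := (h1 n V hV).2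
  have hx : x = z := by
    rcases hVU hq with ⟨q'', h⟩ | ⟨d, h⟩
    · exact (pl_inj h).1
    · exact (pl_ne_pr h).elim
  have hy : y = z := by
    rcases hVU hq' with ⟨q'', h⟩ | ⟨d, h⟩
    · exact (pl_inj h).1
    · exact (pl_ne_pr h).elim
  exact hxy (hx.trans hy.symm)

/-- the space is subnormal -/
theorem subnormal (hr : ∀ ν (q : Q0), r ν ≠ q.1)
    (hc : ∀ a : Ω, (Set.Iio a).Countable)
    (hb : ∀ S : Set Ω, S.Countable → ∃ b, ∀ s ∈ S, s ≤ b)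
    (hQ : ∀ B : Set κ, ∃ f : κ → Ω, ∀ x ∈ B, ∀ y ∉ B, Δ x y < max (f x) (f y)) :
    Subnormal (Pt Δ r) := by
  classical
  -- the symmetric form of the separation property
  have hQ2 : ∀ B : Set κ, ∃ f : κ → Ω, ∀ x y, (x ∈ B ∧ y ∉ B) ∨ (x ∉ B ∧ y ∈ B) →
      Δ x y < max (f x) (f y) := by
    intro B
    obtain ⟨f, hf⟩ := hQ B
    obtain ⟨g, hg⟩ := hQ Bᶜ
    refine ⟨fun x => max (f x) (g x), ?_⟩
    rintro x y (⟨hx, hy⟩ | ⟨hx, hy⟩)
    · exact (hf x hx y hy).trans_le (max_le_max (le_max_left _ _) (le_max_left _ _))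
    · exact (hg x hx y (fun h => h hy)).trans_le (max_le_max (le_max_right _ _) (le_max_right _ _))
  intro S F hS hF hSF
  let H : Bool → Set (Pt Δ r) := fun b => if b then S else F
  have hHc : ∀ b, IsClosed (H b) := by
    intro b; cases b
    · exact hF
    · exact hS
  have hHd : ∀ b p, p ∈ H b → p ∉ H !b := by
    intro b p hp hp'
    cases b
    · exact Set.disjoint_left.1 hSF hp' hp
    · exact Set.disjoint_left.1 hSF hp hp'
  have hm : ∀ (b : Bool) (x : κ) (q : Q0), ∃ m : ℕ, pl Δ r x q ∈ H b → N Δ r x q m ∩ H (!b) = ∅ := by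
    intro b x q
    by_cases hq : pl Δ r x q ∈ H b
    · have h1 : (H !b)ᶜ ∈ nhds (pl Δ r x q) :=
        (hHc _).isOpen_compl.mem_nhds (hHd b _ hq)
      obtain ⟨m, _, hm⟩ := (nhds_pl x q).mem_iff.1 h1
      refine ⟨m, fun _ => ?_⟩
      rw [Set.eq_empty_iff_forall_notMem]
      rintro p ⟨hp, hp'⟩
      exact hm hp hp'
    · exact ⟨0, fun h => (hq h).elim⟩
  choose m hm using hm
  let O : κ → Bool → Set (ℕ → Bool) := fun x b => {z | ∃ q : Q0, pl Δ r x q ∈ H b ∧ Agree (m b x q) z q.1}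
  have hOopen : ∀ x b, CylOpen (O x b) := by
    rintro x b z ⟨q, hq, ha⟩
    exact ⟨m b x q, fun z' hz' => ⟨q, hq, hz'.trans ha⟩⟩
  -- the two open sets are disjoint
  have hOdisj : ∀ x b z, z ∈ O x b → z ∉ O x !b := by
    rintro x b z ⟨q, hq, ha⟩ ⟨q', hq', ha'⟩
    rcases le_total (m b x q) (m (!b) x q') with hle | hle
    · have h1 := hm b x q hq
      rw [Set.eq_empty_iff_forall_notMem] at h1
      exact h1 (pl Δ r x q') ⟨pl_mem_N.2 ⟨rfl, (ha'.mono hle).symm.trans ha⟩, hq'⟩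
    · have h1 := hm (!b) x q' hq'
      rw [Set.eq_empty_iff_forall_notMem] at h1
      refine h1 (pl Δ r x q) ⟨pl_mem_N.2 ⟨rfl, (ha.mono hle).symm.trans ha'⟩, ?_⟩
      rw [Bool.not_not]
      exact hq
  have hOmiss : ∀ x b d, Mm x d → rr Δ r d ∈ O x b → pr Δ r d ∉ H !b := by
    rintro x b d hd ⟨q, hq, ha⟩ hH
    have h1 := hm b x q hq
    rw [Set.eq_empty_iff_forall_notMem] at h1
    exact h1 _ ⟨pr_mem_N.2 ⟨hd, ha⟩, hH⟩
  -- the function `g`
  have hf : ∀ (b : Bool) (n : ℕ) (q : Q0), ∃ f : κ → Ω, ∀ x y,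
      (x ∈ {x | Cyl n q.1 ⊆ O x b} ∧ y ∉ {x | Cyl n q.1 ⊆ O x b}) ∨
      (x ∉ {x | Cyl n q.1 ⊆ O x b} ∧ y ∈ {x | Cyl n q.1 ⊆ O x b}) →
      Δ x y < max (f x) (f y) := fun b n q => hQ2 _
  choose f hf using hf
  have hg : ∀ x, ∃ g : Ω, ∀ b n q, f b n q x ≤ g := by
    intro x
    obtain ⟨g, hg⟩ := hb (Set.range fun t : Bool × ℕ × Q0 => f t.1 t.2.1 t.2.2 x)
      (Set.countable_range _)
    exact ⟨g, fun b n q => hg _ ⟨(b, n, q), rfl⟩⟩
  choose g hg using hg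
  have hOeq : ∀ x y b, g x ≤ Δ x y → g y ≤ Δ x y → O x b = O y b := by
    intro x y b h1 h2
    have hno : ∀ (n : ℕ) (q : Q0), ¬ ((x ∈ {x | Cyl n q.1 ⊆ O x b} ∧ y ∉ {x | Cyl n q.1 ⊆ O x b}) ∨
      (x ∉ {x | Cyl n q.1 ⊆ O x b} ∧ y ∈ {x | Cyl n q.1 ⊆ O x b})) := by
      intro n q hcon
      have h3 := hf b n q x y hcon
      have h4 : max (f b n q x) (f b n q y) ≤ Δ x y :=
        max_le ((hg x b n q).trans h1) ((hg y b n q).trans h2)
      exact absurd h3 (not_lt.2 h4)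
    ext z
    constructor
    · intro hz
      obtain ⟨n, hn⟩ := hOopen x b z hz
      obtain ⟨q, hq⟩ := exists_Q0 n z
      have hx : Cyl n q.1 ⊆ O x b := fun z' hz' => hn z' (hz'.trans hq)
      have hy : Cyl n q.1 ⊆ O y b := by
        by_contra hcon
        exact hno n q (Or.inl ⟨hx, hcon⟩)
      exact hy hq.symm
    · intro hz
      obtain ⟨n, hn⟩ := hOopen y b z hz
      obtain ⟨q, hq⟩ := exists_Q0 n z
      have hy : Cyl n q.1 ⊆ O y b := fun z' hz' => hn z' (hz'.trans hq)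
      have hx : Cyl n q.1 ⊆ O x b := by
        by_contra hcon
        exact hno n q (Or.inr ⟨hcon, hy⟩)
      exact hx hq.symm
  -- enumerations of initial segments
  have he : ∀ a : Ω, ∃ e : Ω → ℕ, Set.InjOn e (Set.Iio a) := by
    intro a
    obtain ⟨e, he⟩ := (Set.countable_iff_exists_injOn).1 (hc a)
    exact ⟨e, he⟩
  choose e he using he
  let dl : {d : κ × κ // d.1 ≠ d.2} → Ω := fun d => Δ d.1.1 d.1.2
  -- the conditions at a member `z` of the pair `d`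
  let G : κ → Bool → {d : κ × κ // d.1 ≠ d.2} → Prop := fun z b d =>
    g z ≤ dl d ∧ rr Δ r d ∈ O z b
  let Gn : κ → Bool → ℕ → {d : κ × κ // d.1 ≠ d.2} → Prop := fun z b n d =>
    ¬ (dl d < g z ∧ e (g z) (dl d) < n) ∧ rr Δ r d ∈ O z b
  let E : Bool → Set (Pt Δ r) := fun b =>
    {p | (∃ x q, p = pl Δ r x q ∧ q.1 ∈ O x b) ∨
      ∃ d, p = pr Δ r d ∧ pr Δ r d ∉ H (!b) ∧ (pr Δ r d ∈ H b ∨ ∃ z, Mm z d ∧ G z b d)}
  let W : Bool → ℕ → Set (Pt Δ r) := fun b n =>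
    {p | (∃ x q, p = pl Δ r x q ∧ q.1 ∈ O x b) ∨
      ∃ d, p = pr Δ r d ∧ pr Δ r d ∉ H (!b) ∧ (pr Δ r d ∈ H b ∨ ∃ z, Mm z d ∧ Gn z b n d)}
  have hWo : ∀ b n, IsOpen (W b n) := by
    intro b n
    rw [isOpen_pt]
    rintro x q (⟨x', q', h, hq⟩ | ⟨d, h, _⟩)
    · obtain ⟨rfl, rfl⟩ := pl_inj h
      obtain ⟨m0, hm0⟩ := hOopen x b q.1 hq
      -- the finite set of exceptional levels
      have hfin : {a | a < g x ∧ e (g x) a < n}.Finite := by
        refine Set.Finite.of_finite_image ((Set.finite_lt_nat n).subset ?_)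
          (((he (g x)).mono (fun a ha => ha.1)) : Set.InjOn (e (g x)) _)
        rintro _ ⟨a, ha, rfl⟩
        exact ha.2
      have hm1 : ∃ m1, ∀ a ∈ {a | a < g x ∧ e (g x) a < n}, ¬ Agree m1 (r a) q.1 := by
        have : ∀ a, ∃ k, ¬ Agree k (r a) q.1 := fun a => exists_not_agree (hr a q)
        choose k hk using this
        obtain ⟨m1, hm1⟩ := (hfin.image k).bddAbove
        exact ⟨m1, fun a ha hag => hk a (hag.mono (hm1 ⟨a, ha, rfl⟩))⟩
      obtain ⟨m1, hm1⟩ := hm1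
      refine ⟨max m0 m1, ?_⟩
      rintro p (⟨q', rfl, ha⟩ | ⟨d, rfl, hd, ha⟩)
      · exact Or.inl ⟨x, q', rfl, hm0 _ (ha.mono (le_max_left _ _))⟩
      · have hO : rr Δ r d ∈ O x b := hm0 _ (ha.mono (le_max_left _ _))
        refine Or.inr ⟨d, rfl, hOmiss x b d hd hO, Or.inr ⟨x, hd, ?_, hO⟩⟩
        intro hcon
        exact hm1 (dl d) hcon (ha.mono (le_max_right _ _))
    · exact (pl_ne_pr h).elim
  have hEW : ∀ b, E b = ⋂ n, W b n := by
    intro b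
    ext p
    rw [Set.mem_iInter]
    constructor
    · rintro (⟨x, q, rfl, hq⟩ | ⟨d, rfl, hd, h⟩) n
      · exact Or.inl ⟨x, q, rfl, hq⟩
      · refine Or.inr ⟨d, rfl, hd, ?_⟩
        rcases h with h | ⟨z, hz, h1, h2⟩
        · exact Or.inl h
        · exact Or.inr ⟨z, hz, fun hcon => absurd h1 (not_le.2 hcon.1), h2⟩
    · intro h
      rcases pt_cases p with ⟨x, q, rfl⟩ | ⟨d, rfl⟩
      · rcases h 0 with ⟨x', q', h', hq⟩ | ⟨d, h', _⟩
        · exact Or.inl ⟨x', q', h', hq⟩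
        · exact (pl_ne_pr h').elim
      · have hd : ∀ n, pr Δ r d ∉ H (!b) ∧ (pr Δ r d ∈ H b ∨ ∃ z, Mm z d ∧ Gn z b n d) := by
          intro n
          rcases h n with ⟨x', q', h', hq⟩ | ⟨d', h', hd'⟩
          · exact (pl_ne_pr h'.symm).elim
          · rw [pr_inj h']
            exact hd'
        refine Or.inr ⟨d, rfl, (hd 0).1, ?_⟩
        by_cases hH : pr Δ r d ∈ H b
        · exact Or.inl hH
        · right
          have h1 : ∀ n, ∃ z, Mm z d ∧ Gn z b n d := fun n => (hd n).2.resolve_left hH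
          by_contra hcon
          push Not at hcon
          -- each member fails from some index on
          have h2 : ∀ z, Mm z d → ∃ n, ∀ n' ≥ n, ¬ Gn z b n' d := by
            intro z hz
            by_cases hO : rr Δ r d ∈ O z b
            · have h3 : dl d < g z := by
                by_contra h4
                exact hcon z hz ⟨not_lt.1 h4, hO⟩
              refine ⟨e (g z) (dl d) + 1, fun n' hn' hG => hG.1 ⟨h3, ?_⟩⟩
              omega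
            · exact ⟨0, fun n' _ hG => hO hG.2⟩
          obtain ⟨n1, hn1⟩ := h2 d.1.1 (Or.inl rfl)
          obtain ⟨n2, hn2⟩ := h2 d.1.2 (Or.inr rfl)
          obtain ⟨z, hz, hG⟩ := h1 (max n1 n2)
          rcases hz with rfl | rfl
          · exact hn1 _ (le_max_left _ _) hG
          · exact hn2 _ (le_max_right _ _) hG
  have hEG : ∀ b, IsGδ (E b) := fun b => by
    rw [hEW b]
    exact IsGδ.iInter_of_isOpen (hWo b)
  have hHE : ∀ b, H b ⊆ E b := by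
    intro b p hp
    rcases pt_cases p with ⟨x, q, rfl⟩ | ⟨d, rfl⟩
    · exact Or.inl ⟨x, q, rfl, q, hp, Agree.refl _ _⟩
    · exact Or.inr ⟨d, rfl, hHd b _ hp, Or.inl hp⟩
  have hEd : ∀ b, Disjoint (E b) (E !b) := by
    intro b
    rw [Set.disjoint_left]
    rintro p (⟨x, q, rfl, hq⟩ | ⟨d, rfl, hd, h⟩) hp'
    · rcases hp' with ⟨x', q', h', hq'⟩ | ⟨d, h', _⟩
      · obtain ⟨rfl, rfl⟩ := pl_inj h'
        exact hOdisj _ _ _ hq hq'
      · exact pl_ne_pr h'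
    · rcases hp' with ⟨x', q', h', hq'⟩ | ⟨d', h', hd', h''⟩
      · exact pl_ne_pr h'.symm
      · obtain rfl := pr_inj h'
        rw [Bool.not_not] at hd'
        rcases h with h | ⟨z, hz, hG⟩
        · exact hd' h
        · rcases h'' with h'' | ⟨z', hz', hG'⟩
          · exact hd h''
          · have hzz : z = z' ∨ (z = d.1.1 ∧ z' = d.1.2) ∨ (z = d.1.2 ∧ z' = d.1.1) := by
              rcases hz with hz | hz <;> rcases hz' with hz' | hz'
              · exact Or.inl (hz.trans hz'.symm)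
              · exact Or.inr (Or.inl ⟨hz, hz'⟩)
              · exact Or.inr (Or.inr ⟨hz, hz'⟩)
              · exact Or.inl (hz.trans hz'.symm)
            rcases hzz with rfl | ⟨rfl, rfl⟩ | ⟨rfl, rfl⟩
            · exact hOdisj _ _ _ hG.2 hG'.2
            · have := hOeq _ _ b hG.1 hG'.1
              exact hOdisj _ _ _ (this ▸ hG.2) hG'.2
            · have := hOeq _ _ b hG'.1 hG.1
              exact hOdisj _ _ _ (this.symm ▸ hG.2) hG'.2
  exact ⟨E true, E false, hEG true, hEG false, hHE true, hHE false, hEd true⟩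

end

end Pool.Agent.Lib.MP_df1441_gt
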