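import Pool.Agent.Lib.MP_df1441_gt.Z.Space2

/-!
# The space from an enumeration of the reals and a separation function
-/

set_option autoImplicit false

namespace Pool.Agent.Lib.MP_df1441_gt

theorem CylOpen.isOpen {O : Set (ℕ → Bool)} (h : CylOpen O) : IsOpen O := by
  rw [isOpen_pi_iff]
  intro z hz
  obtain ⟨n, hn⟩ := h z hz
  refine ⟨Finset.range n, fun i => {z i}, fun i _ => ⟨isOpen_discrete _, rfl⟩, ?_⟩
  intro z' hz'
  apply hn
  intro i hi
  exact hz' i (Finset.mem_coe.2 (Finset.mem_range.2 hi))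

theorem CylDense.dense {O : Set (ℕ → Bool)} (h : CylDense O) : Dense O := by
  rw [dense_iff_inter_open]
  rintro U hU ⟨z, hz⟩
  obtain ⟨I, u, hu, hsub⟩ := isOpen_pi_iff.1 hU z hz
  obtain ⟨n, hn⟩ := I.bddAbove
  obtain ⟨z', hz', ha⟩ := h (n + 1) z
  refine ⟨z', hsub fun i hi => ?_, hz'⟩
  have h1 : i ≤ n := hn (Finset.mem_coe.1 hi)
  rw [ha i (Nat.lt_succ_of_le h1)]
  exact (hu i (Finset.mem_coe.1 hi)).2

theorem cylOpen_ne (q : Q0) : CylOpen {z | z ≠ q.1} := by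
  intro z hz
  obtain ⟨n, hn⟩ := exists_not_agree hz
  exact ⟨n, fun z' hz' h => hn (h ▸ hz'.symm)⟩

theorem cylDense_ne (q : Q0) : CylDense {z | z ≠ q.1} := by
  intro n z
  refine ⟨fun i => if i < n then z i else !q.1 i, ?_, fun i hi => by simp [hi]⟩
  intro h
  have := congrFun h n
  simp at this

/-- the cylinder of a finite sequence -/
def CylL (l : List Bool) : Set (ℕ → Bool) := {z | ∀ (i : ℕ) (h : i < l.length), z i = l[i]}

theorem cylL_open (X : Set (List Bool)) : CylOpen {z | ∃ l ∈ X, z ∈ CylL l} := by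
  rintro z ⟨l, hl, hz⟩
  exact ⟨l.length, fun z' hz' => ⟨l, hl, fun i hi => (hz' i hi).trans (hz i hi)⟩⟩

theorem eq_cylL {O : Set (ℕ → Bool)} (h : CylOpen O) :
    O = {z | ∃ l ∈ {l : List Bool | CylL l ⊆ O}, z ∈ CylL l} := by
  ext z
  constructor
  · intro hz
    obtain ⟨n, hn⟩ := h z hz
    refine ⟨List.ofFn (fun i : Fin n => z i), ?_, ?_⟩
    · intro z' hz'
      apply hn
      intro i hi
      have := hz' i (by rw [List.length_ofFn]; exact hi)
      rw [this, List.getElem_ofFn]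
    · intro i hi
      rw [List.getElem_ofFn]
  · rintro ⟨l, hl, hz⟩
    exact hl hz

section

variable {Ω : Type} [LinearOrder Ω]

/-- countable subsets are bounded -/
theorem exists_bound (hc : ∀ a : Ω, (Set.Iio a).Countable)
    (hE : ∃ E : Set (Ω × ℕ), ∀ x : Set ℕ, ∃ ξ : Ω, ∀ n : ℕ, n ∈ x ↔ (ξ, n) ∈ E)
    (S : Set Ω) (hS : S.Countable) : ∃ b, ∀ s ∈ S, s ≤ b := by
  by_contra hcon
  push Not at hcon
  obtain ⟨E, hE⟩ := hE
  have hsurj : Function.Surjective (fun (ξ : Ω) => {n : ℕ | (ξ, n) ∈ E}) := by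
    intro x
    obtain ⟨ξ, hξ⟩ := hE x
    exact ⟨ξ, Set.ext fun n => (hξ n).symm⟩
  have h1 : (Set.univ : Set Ω).Countable := by
    refine (hS.biUnion fun s _ => hc s).mono ?_
    intro b _
    obtain ⟨s, hs, hb⟩ := hcon b
    exact Set.mem_biUnion hs hb
  have h2 : Countable Ω := Set.countable_univ_iff.1 h1
  have h3 : Countable (Set ℕ) := hsurj.countable
  have h4 : Cardinal.mk (Set ℕ) ≤ Cardinal.aleph0 := Cardinal.mk_le_aleph0_iff.2 h3
  rw [Cardinal.mk_set, Cardinal.mk_nat] at h4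
  exact absurd h4 (not_le.2 (Cardinal.cantor _))

/-- a Luzin sequence -/
theorem exists_luzin (hc : ∀ a : Ω, (Set.Iio a).Countable)
    (hE : ∃ E : Set (Ω × ℕ), ∀ x : Set ℕ, ∃ ξ : Ω, ∀ n : ℕ, n ∈ x ↔ (ξ, n) ∈ E) :
    ∃ r : Ω → ℕ → Bool, (∀ ν (q : Q0), r ν ≠ q.1) ∧
      ∀ O : Set (ℕ → Bool), CylOpen O → CylDense O → {ν | r ν ∉ O}.Countable := by
  classical
  obtain ⟨E, hE⟩ := hE
  let O : Ω → Set (ℕ → Bool) := fun ν => {z | ∃ l ∈ {l : List Bool | (ν, Encodable.encode l) ∈ E},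
    z ∈ CylL l}
  have hex : ∀ ν : Ω, ∃ z : ℕ → Bool, (∀ q : Q0, z ≠ q.1) ∧
      ∀ μ ≤ ν, CylDense (O μ) → z ∈ O μ := by
    intro ν
    have hcν : Countable (Set.Iic ν) := by
      have : Set.Iic ν = Set.Iio ν ∪ {ν} := by
        ext x
        simp [le_iff_lt_or_eq]
      rw [this]
      exact ((hc ν).union (Set.countable_singleton ν)).to_subtype
    let A : Set.Iic ν ⊕ Q0 → Set (ℕ → Bool) := fun i => match i with
      | Sum.inl μ => if CylDense (O μ.1) then O μ.1 else Set.univ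
      | Sum.inr q => {z | z ≠ q.1}
    have hAo : ∀ i, IsOpen (A i) := by
      rintro (μ | q)
      · change IsOpen (if CylDense (O μ.1) then O μ.1 else Set.univ)
        split_ifs
        · exact (cylL_open _).isOpen
        · exact isOpen_univ
      · exact (cylOpen_ne q).isOpen
    have hAd : ∀ i, Dense (A i) := by
      rintro (μ | q)
      · change Dense (if CylDense (O μ.1) then O μ.1 else Set.univ)
        split_ifs with h
        · exact h.dense
        · exact dense_univ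
      · exact (cylDense_ne q).dense
    have hd : Dense (⋂ i, A i) := dense_iInter_of_isOpen hAo hAd
    obtain ⟨z, hz⟩ := hd.nonempty
    rw [Set.mem_iInter] at hz
    refine ⟨z, fun q => hz (Sum.inr q), fun μ hμ hd => ?_⟩
    have h1 : z ∈ if CylDense (O μ) then O μ else Set.univ := hz (Sum.inl ⟨μ, hμ⟩)
    rwa [if_pos hd] at h1
  choose r hr1 hr2 using hex
  refine ⟨r, hr1, fun O' ho hd => ?_⟩
  obtain ⟨μ, hμ⟩ := hE {n | ∃ l : List Bool, CylL l ⊆ O' ∧ n = Encodable.encode l}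
  have hO : O' = O μ := by
    rw [eq_cylL ho]
    ext z
    constructor
    · rintro ⟨l, hl, hz⟩
      exact ⟨l, (hμ _).1 ⟨l, hl, rfl⟩, hz⟩
    · rintro ⟨l, hl, hz⟩
      obtain ⟨l', hl', he⟩ := (hμ _).2 hl
      obtain rfl := Encodable.encode_injective he
      exact ⟨l, hl', hz⟩
  refine (hc μ).mono fun ν hν => ?_
  by_contra hcon
  rw [Set.mem_Iio, not_lt] at hcon
  apply hν
  rw [hO]
  exact hr2 ν μ hcon (hO ▸ hd)

end

/-- the space -/
theorem exists_space {κ Ω : Type} [LinearOrder Ω] (hc : ∀ a : Ω, (Set.Iio a).Countable)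
    (hE : ∃ E : Set (Ω × ℕ), ∀ x : Set ℕ, ∃ ξ : Ω, ∀ n : ℕ, n ∈ x ↔ (ξ, n) ∈ E)
    (D : κ × κ → Ω)
    (hQ : ∀ B : Set κ, ∃ f : κ → Ω, ∀ x ∈ B, ∀ y ∉ B, D (x, y) < max (f x) (f y))
    (hQ' : ¬ ∃ f : κ → Ω, ∀ x y, x ≠ y → D (x, y) ≤ max (f x) (f y)) :
    ∃ (X : Type) (_ : TopologicalSpace X), T3Space X ∧ FirstCountableTopology X ∧
      Subnormal X ∧ Metacompact X ∧ ¬ Subparacompact X := by
  obtain ⟨r, hr, hL⟩ := exists_luzin hc hE
  have hb := exists_bound hc hE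
  exact ⟨Pt (fun x y => D (x, y)) r, inferInstance, t3 hr, firstCountable, subnormal hr hc hb hQ,
    metacompact, not_subparacompact hb hL hQ'⟩

end Pool.Agent.Lib.MP_df1441_gt
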